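import Pool.Agent.H40.Flag.Formula

/-!
# Bilinear forms, frames adapted to an orthogonal space, its Plücker coordinates
-/

set_option autoImplicit false

namespace Pool.Agent.H40.Cls

open Matrix Pool.Agent.H40.Flag

variable {N : ℕ}

lemma bil_eq (B : Matrix (Fin N) (Fin N) ℂ) (v w : Fin N → ℂ) :
    bil B v w = ∑ i, ∑ j, v i * B i j * w j := by
  unfold bil
  simp only [dotProduct, Matrix.mulVec, Finset.mul_sum, mul_assoc]

lemma bil_add_left (B : Matrix (Fin N) (Fin N) ℂ) (v v' w : Fin N → ℂ) :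
    bil B (v + v') w = bil B v w + bil B v' w := by
  unfold bil; rw [add_dotProduct]

lemma bil_add_right (B : Matrix (Fin N) (Fin N) ℂ) (v w w' : Fin N → ℂ) :
    bil B v (w + w') = bil B v w + bil B v w' := by
  unfold bil; rw [Matrix.mulVec_add, dotProduct_add]

lemma bil_smul_left (B : Matrix (Fin N) (Fin N) ℂ) (c : ℂ) (v w : Fin N → ℂ) :
    bil B (c • v) w = c * bil B v w := by
  unfold bil; rw [smul_dotProduct, smul_eq_mul]

lemma bil_smul_right (B : Matrix (Fin N) (Fin N) ℂ) (c : ℂ) (v w : Fin N → ℂ) :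
    bil B v (c • w) = c * bil B v w := by
  unfold bil; rw [Matrix.mulVec_smul, dotProduct_smul, smul_eq_mul]

lemma bil_zero_left (B : Matrix (Fin N) (Fin N) ℂ) (w : Fin N → ℂ) : bil B 0 w = 0 := by
  unfold bil; rw [zero_dotProduct]

lemma bil_zero_right (B : Matrix (Fin N) (Fin N) ℂ) (v : Fin N → ℂ) : bil B v 0 = 0 := by
  unfold bil; rw [Matrix.mulVec_zero, dotProduct_zero]

lemma bil_swap {B : Matrix (Fin N) (Fin N) ℂ} {ε : ℂ} (hB : Bᵀ = ε • B) (v w : Fin N → ℂ) :
    bil B w v = ε * bil B v w := by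
  rw [bil_eq, bil_eq, Finset.sum_comm, Finset.mul_sum]
  refine Finset.sum_congr rfl fun i _ => ?_
  rw [Finset.mul_sum]
  refine Finset.sum_congr rfl fun j _ => ?_
  have h := congrFun (congrFun hB i) j
  rw [Matrix.transpose_apply, Matrix.smul_apply, smul_eq_mul] at h
  rw [h]
  ring

/-- the vectors `w` with `bil B v w = 0` for all `v` in the set -/
def perp (B : Matrix (Fin N) (Fin N) ℂ) (X : Set (Fin N → ℂ)) : Submodule ℂ (Fin N → ℂ) where
  carrier := {w | ∀ v ∈ X, bil B v w = 0}
  add_mem' := fun ha hb v hv => by rw [bil_add_right, ha v hv, hb v hv, add_zero]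
  zero_mem' := fun v _ => bil_zero_right B v
  smul_mem' := fun c w hw v hv => by rw [bil_smul_right, hw v hv, mul_zero]

lemma mem_perp {B : Matrix (Fin N) (Fin N) ℂ} {X : Set (Fin N → ℂ)} {w : Fin N → ℂ} :
    w ∈ perp B X ↔ ∀ v ∈ X, bil B v w = 0 := Iff.rfl

/-- forms vanishing on generators vanish on spans -/
lemma bil_span {B : Matrix (Fin N) (Fin N) ℂ} {X Y : Set (Fin N → ℂ)}
    (h : ∀ v ∈ X, ∀ w ∈ Y, bil B v w = 0) {v w : Fin N → ℂ} (hv : v ∈ Submodule.span ℂ X)
    (hw : w ∈ Submodule.span ℂ Y) : bil B v w = 0 := by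
  have h1 : ∀ v ∈ X, bil B v w = 0 := by
    intro v hv
    have h2 : Submodule.span ℂ Y ≤ perp B {v} := Submodule.span_le.mpr fun w hw => by
      intro v' hv'
      rw [Set.mem_singleton_iff.mp hv']
      exact h v hv w hw
    exact h2 hw v rfl
  induction hv using Submodule.span_induction with
  | mem x hx => exact h1 x hx
  | zero => exact bil_zero_left B w
  | add x y _ _ hx hy => rw [bil_add_left, hx, hy, add_zero]
  | smul c x _ hx => rw [bil_smul_left, hx, mul_zero]

/-! ### frames -/

lemma isFrame_iff (v : ℕ → Fin N → ℂ) :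
    IsFrame v ↔ LinearIndependent ℂ (fun s : Fin N => v s) := by
  unfold IsFrame mn
  rw [← isUnit_iff_ne_zero, ← Matrix.det_transpose]
  have h : (Matrix.of fun r s : Fin N => v s (id r))ᵀ = Matrix.of fun s : Fin N => v s := by
    funext r s
    rfl
  rw [h, ← Matrix.isUnit_iff_isUnit_det, ← Matrix.linearIndependent_rows_iff_isUnit]
  rfl

/-- Extension of an independent family inside a subspace. -/
lemma exists_extend (W : Submodule ℂ (Fin N → ℂ)) {w : ℕ} (hw : w ≤ Module.finrank ℂ W) :
    ∀ (b : ℕ), b ≤ w → ∀ f : ℕ → Fin N → ℂ, (∀ s, s < b → f s ∈ W) →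
      LinearIndependent ℂ (fun s : Fin b => f s) →
      ∃ g : ℕ → Fin N → ℂ, (∀ s, s < b → g s = f s) ∧ (∀ s, s < w → g s ∈ W) ∧
        LinearIndependent ℂ (fun s : Fin w => g s) := by
  intro b hb
  obtain ⟨e, rfl⟩ := Nat.exists_eq_add_of_le hb
  clear hb
  induction e generalizing b with
  | zero => exact fun f hf hli => ⟨f, fun _ _ => rfl, hf, hli⟩
  | succ e ih =>
    intro f hf hli
    obtain ⟨x, hxW, hx⟩ : ∃ x ∈ W, x ∉ Submodule.span ℂ (Set.range fun s : Fin b => f s) := by
      by_contra hcon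
      push Not at hcon
      have h1 : W ≤ Submodule.span ℂ (Set.range fun s : Fin b => f s) := hcon
      have h2 := Submodule.finrank_mono h1
      rw [finrank_span_eq_card hli, Fintype.card_fin] at h2
      omega
    have hli' : LinearIndependent ℂ (fun s : Fin (b + 1) => Function.update f b x s) := by
      have h1 := (linearIndependent_finSnoc (v := fun s : Fin b => f s) (x := x)).mpr ⟨hli, hx⟩
      have h2 : (fun s : Fin (b + 1) => Function.update f b x s) =
          Fin.snoc (fun s : Fin b => f s) x := by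
        funext s
        refine Fin.lastCases ?_ (fun s => ?_) s
        · rw [Fin.snoc_last, Fin.val_last, Function.update_self]
        · rw [Fin.snoc_castSucc, Fin.val_castSucc, Function.update_of_ne (by omega)]
      rw [h2]
      exact h1
    obtain ⟨g, hg1, hg2, hg3⟩ := ih (b + 1) (by omega) (Function.update f b x) (fun s hs => by
      by_cases h : s = b
      · subst h; rw [Function.update_self]; exact hxW
      · rw [Function.update_of_ne h]; exact hf s (by omega)) hli'
    have e1 : b + 1 + e = b + (e + 1) := by ring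
    rw [e1] at hg2 hg3
    exact ⟨g, fun s hs => by rw [hg1 s (by omega), Function.update_of_ne (by omega)], hg2, hg3⟩

/-- A frame adapted to the orthogonal of the first `p` vectors. -/
theorem exists_adapted {B : Matrix (Fin N) (Fin N) ℂ} {v : ℕ → Fin N → ℂ} (hv : IsFrame v)
    {p b : ℕ} (hbp : b ≤ N - p) (hB : ∀ s s', s < p → s' < b → bil B (v s) (v s') = 0) :
    ∃ v₁ : ℕ → Fin N → ℂ, IsFrame v₁ ∧ (∀ s, s < b → v₁ s = v s) ∧
      ∀ s, s < N - p → ∀ s', s' < p → bil B (v s') (v₁ s) = 0 := by
  classical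
  have hli := (isFrame_iff v).mp hv
  set W : Submodule ℂ (Fin N → ℂ) := perp B (v '' {s | s < p}) with hW
  have hWf : N - p ≤ Module.finrank ℂ W := by
    set f : (Fin N → ℂ) →ₗ[ℂ] (Fin p → ℂ) :=
      { toFun := fun w s => bil B (v s) w
        map_add' := fun w w' => by funext s; exact bil_add_right B _ _ _
        map_smul' := fun c w => by funext s; exact bil_smul_right B _ _ _ } with hf
    have h1 := LinearMap.finrank_range_add_finrank_ker f
    have h2 : Module.finrank ℂ (LinearMap.range f) ≤ p := by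
      have := Submodule.finrank_le (LinearMap.range f)
      rwa [Module.finrank_fin_fun] at this
    rw [Module.finrank_fin_fun] at h1
    have h3 : LinearMap.ker f ≤ W := by
      intro w hw
      rw [hW, mem_perp]
      rintro _ ⟨s, hs, rfl⟩
      exact congrFun hw ⟨s, hs⟩
    have h4 := Submodule.finrank_mono h3
    omega
  have hbN : b ≤ N := by omega
  obtain ⟨g, hg1, hg2, hg3⟩ := exists_extend W hWf b hbp v (fun s hs => by
    rw [hW, mem_perp]
    rintro _ ⟨s', hs', rfl⟩
    exact hB s' s hs' hs) (by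
    have := hli.comp (Fin.castLE hbN) (Fin.castLE_injective hbN)
    exact this)
  obtain ⟨g', hg'1, -, hg'3⟩ := exists_extend (⊤ : Submodule ℂ (Fin N → ℂ)) (w := N)
    (by rw [finrank_top, Module.finrank_fin_fun]) (N - p) (by omega) g (fun _ _ => trivial) hg3
  refine ⟨g', (isFrame_iff g').mpr hg'3, fun s hs => ?_, fun s hs s' hs' => ?_⟩
  · rw [hg'1 s (by omega), hg1 s hs]
  · rw [hg'1 s hs]
    exact hg2 s hs _ ⟨s', hs', rfl⟩

end Pool.Agent.H40.Cls
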