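import Pool.Agent.H40.Cls.Step

/-!
# The elimination in the different cases; the count for the last step
-/

set_option autoImplicit false

namespace Pool.Agent.H40.Cls

open Matrix MvPolynomial Pool.Agent.H22.Sub Pool.Agent.H40.Flag

variable {T I : Type} {n : T → ℕ} {t : I → T} {k : I → ℕ}
  {B : ∀ τ, Matrix (Fin (n τ)) (Fin (n τ)) ℂ} {A : Finset I} {J : Type}
  {F : J → MvPolynomial (Crd n t k) ℂ} {d : J → I → ℕ} {i₀ : I}

lemma iso_of_step {v : ∀ τ, ℕ → Fin (n τ) → ℂ} {τ : T} {κ : ℕ} {i : I}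
    (h : ∀ s s', s < k i → s' < k i → bil (B (t i)) (v (t i) s) (v (t i) s') = 0)
    (h1 : t i = τ) (h2 : k i = κ) :
    ∀ s s', s < κ → s' < κ → bil (B τ) (v τ s) (v τ s') = 0 := by
  subst h1 h2
  exact h

open Classical in
/-- First case: the neighbours of the step are given and the flags are isotropic up to the
next one. -/
theorem elim_mid [Fintype I] (hinj : ∀ i j, t i = t j → k i = k j → i = j)
    (hk : ∀ i, 0 < k i ∧ k i < n (t i))
    (hF : ∀ j, MultiHom Sigma.fst (F j) (fun i => (d j i : ℤ))) (hi₀ : i₀ ∈ A)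
    (hone : ∀ j, d j i₀ ≠ 0 → d j i₀ = 1) {p q : ℕ} (hqn : q ≤ n (t i₀))
    (hfin : ∀ x ∈ LocF B A F, FinPts Sigma.fst (fib Sigma.fst (LocF B A F) i₀ x))
    {m : ℕ} (e : Fin m ≃ {j // d j i₀ ≠ 0})
    (hcase : (k i₀ = p + 1 ∧ q = p + 1 + m) ∨ (k i₀ = p + m ∧ q = p + m + 1))
    (hpb : p < k i₀) (hbq : k i₀ < q)
    (hpm : p = 0 ∨ ∃ i ∈ A, t i = t i₀ ∧ k i = p)
    (hqm : (q = n (t i₀) ∧ B (t i₀) = 0) ∨ ∃ i ∈ A, t i = t i₀ ∧ k i = q)
    (hp : ∀ i ∈ A, t i = t i₀ → k i < k i₀ → k i ≤ p)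
    (hq : ∀ i ∈ A, t i = t i₀ → k i₀ < k i → q ≤ k i) :
    ∃ Y : (Fin (k i₀) → Fin (n (t i₀))) → MvPolynomial (Crd n t k) ℂ,
      Elim i₀ (LocF B A F) (LocF B (A.erase i₀) (fun j : {j // d j i₀ = 0} => F j.1)) Y
        (∑ j, dropHom i₀ (fun i => (d (e j).1 i : ℤ)) +
          (q - k i₀) • (fun i => if i ∈ A.erase i₀ ∧ t i = t i₀ ∧ k i = p then 1 else 0) +
          (k i₀ - p) • (fun i => if i ∈ A.erase i₀ ∧ t i = t i₀ ∧ k i = q then 1 else 0)) := by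
  have hp' : p = 0 ∨ p = n (t i₀) ∨ ∃ i ∈ A.erase i₀, t i = t i₀ ∧ k i = p := by
    rcases hpm with h | ⟨i, hi, h1, h2⟩
    · exact Or.inl h
    · exact Or.inr (Or.inr ⟨i, Finset.mem_erase.mpr ⟨by rintro rfl; omega, hi⟩, h1, h2⟩)
  have hq' : q = 0 ∨ q = n (t i₀) ∨ ∃ i ∈ A.erase i₀, t i = t i₀ ∧ k i = q := by
    rcases hqm with h | ⟨i, hi, h1, h2⟩
    · exact Or.inr (Or.inl h.1)
    · exact Or.inr (Or.inr ⟨i, Finset.mem_erase.mpr ⟨by rintro rfl; omega, hi⟩, h1, h2⟩)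
  have hiso : ∀ (v : ∀ τ, ℕ → Fin (n τ) → ℂ) (c : I → ℂ) (z : Crd n t k → ℂ),
      IsFlag B (A.erase i₀) v c z → ∀ s s', s < q → s' < q →
        bil (B (t i₀)) (v (t i₀) s) (v (t i₀) s') = 0 := by
    intro v c z hz
    rcases hqm with h | ⟨i, hi, h1, h2⟩
    · intro s s' _ _
      rw [h.2]
      unfold bil
      rw [Matrix.zero_mulVec, dotProduct_zero]
    · exact iso_of_step (hz.iso i (Finset.mem_erase.mpr ⟨by rintro rfl; omega, hi⟩)) h1 h2
  obtain ⟨P, hPh, hPv⟩ := exists_nb hinj hk (A.erase i₀) (t i₀) p hp'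
  obtain ⟨Q, hQh, hQv⟩ := exists_nb hinj hk (A.erase i₀) (t i₀) q hq'
  refine exists_elimination_of hk hF hi₀ hone hqn hfin e hcase hPh
    (by rw [if_neg (fun h => Finset.notMem_erase i₀ A h.1)]) hQh
    (by rw [if_neg (fun h => Finset.notMem_erase i₀ A h.1)]) ?_ ?_
  · intro x v c hvc
    obtain ⟨C, hC, hC1⟩ := hPv v c x hvc.frame (fun i hi => hvc.ne i (Finset.mem_of_mem_erase hi))
      (fun i hi => hvc.eq i (Finset.mem_of_mem_erase hi))
    obtain ⟨C', hC', hC'1⟩ := hQv v c x hvc.frame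
      (fun i hi => hvc.ne i (Finset.mem_of_mem_erase hi))
      (fun i hi => hvc.eq i (Finset.mem_of_mem_erase hi))
    refine ⟨v (t i₀), C, C', hvc.frame _, hC, hC', hC1, hC'1, fun _ => rfl, fun v' hv' l hl => ?_⟩
    obtain ⟨c', hc'⟩ := replace_adj hinj (hvc.erase i₀) hi₀ hp hq hbq.le
      (hiso v c _ (hvc.erase i₀)) hv' hl
    exact ⟨_, c', hc'⟩
  · intro z v c hvc
    refine ⟨v (t i₀), hvc.frame _, fun v' hv' => ?_⟩
    obtain ⟨c', hc'⟩ := replace_adj (x := z) hinj (by rw [hvc.erase_self]; exact hvc) hi₀ hp hq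
      hbq.le (hiso v c _ hvc) hv' one_ne_zero
    exact ⟨_, c', hc'⟩

/-! ### second case: the last step in a symplectic space -/

lemma replace_last [DecidableEq I] [DecidableEq T]
    (hinj : ∀ i j, t i = t j → k i = k j → i = j)
    {v : ∀ τ, ℕ → Fin (n τ) → ℂ} {c : I → ℂ} {x : Crd n t k → ℂ}
    (h : IsFlag B (A.erase i₀) v c (gl i₀ x 0)) (hi₀ : i₀ ∈ A) {p : ℕ}
    (hb : k i₀ = p + 1) (hlast : ∀ i ∈ A, t i = t i₀ → k i ≤ k i₀)
    (hBt : (B (t i₀))ᵀ = -B (t i₀)) {v₁ : ℕ → Fin (n (t i₀)) → ℂ}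
    (hv₁ : ∀ s, s < p → v₁ s = v (t i₀) s)
    (hperp : ∀ s, s < n (t i₀) - p → ∀ s', s' < p → bil (B (t i₀)) (v₁ s') (v₁ s) = 0)
    (hpn : p < n (t i₀) - p)
    {v' : ℕ → Fin (n (t i₀)) → ℂ} (hv' : Adj p (n (t i₀) - p) v₁ v') {l : ℂ} (hl : l ≠ 0) :
    ∃ c', IsFlag B A (Function.update v (t i₀) v') c'
      (gl i₀ x (fun ρ => l * mn v' (k i₀) ρ)) := by
  have hBt' : (B (t i₀))ᵀ = (-1 : ℂ) • B (t i₀) := by rw [hBt, neg_one_smul]
  have hle : ∀ i ∈ A.erase i₀, t i = t i₀ → k i ≤ p := by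
    intro i hi h1
    obtain ⟨hi1, hi2⟩ := Finset.mem_erase.mp hi
    have h2 := hlast i hi2 h1
    have h3 : k i ≠ k i₀ := fun h3 => hi1 (hinj i i₀ h1 h3)
    omega
  have hlow : ∀ s, s < p → v' s = v₁ s := fun s hs => hv'.fix s (Or.inl hs)
  have hspan : v' p ∈ Submodule.span ℂ (v₁ '' {x | x < n (t i₀) - p}) := hv'.span p hpn
  have hp1 : ∀ s, s < p → bil (B (t i₀)) (v' s) (v' p) = 0 := by
    intro s hs
    rw [hlow s hs]
    refine bil_span (X := {v₁ s}) ?_ (Submodule.mem_span_singleton_self _) hspan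
    rintro a ha _ ⟨s', hs', rfl⟩
    rw [Set.mem_singleton_iff.mp ha]
    exact hperp s' hs' s hs
  refine h.replace hi₀ hv'.frame (fun i hi h1 => ⟨1, one_ne_zero, fun ρ => ?_⟩)
    (fun i hi h1 s s' hs hs' => ?_) hl
  · rw [hv'.low _ (hle i hi h1), one_mul]
    exact mn_congr (fun s hs => hv₁ s (lt_of_lt_of_le hs (hle i hi h1))) ρ
  · have h2 := hlast i hi h1
    have hs1 : s ≤ p := by omega
    have hs'1 : s' ≤ p := by omega
    rcases hs1.lt_or_eq with h3 | h3 <;> rcases hs'1.lt_or_eq with h4 | h4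
    · rw [hlow s h3, hlow s' h4]
      exact hperp s' (by omega) s h3
    · rw [h4]; exact hp1 s h3
    · rw [h3, bil_swap hBt', hp1 s' h4, mul_zero]
    · rw [h3, h4]
      have h5 := bil_swap hBt' (v' p) (v' p)
      linear_combination (1 / 2 : ℂ) * h5

open Classical in
/-- Second case: the step is the last one in a symplectic space and one above the previous one. -/
theorem elim_last [Fintype I] (hinj : ∀ i j, t i = t j → k i = k j → i = j)
    (hk : ∀ i, 0 < k i ∧ k i < n (t i))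
    (hF : ∀ j, MultiHom Sigma.fst (F j) (fun i => (d j i : ℤ))) (hi₀ : i₀ ∈ A)
    (hone : ∀ j, d j i₀ ≠ 0 → d j i₀ = 1) {p : ℕ}
    (hfin : ∀ x ∈ LocF B A F, FinPts Sigma.fst (fib Sigma.fst (LocF B A F) i₀ x))
    {m : ℕ} (e : Fin m ≃ {j // d j i₀ ≠ 0}) (hb : k i₀ = p + 1)
    (hpn : n (t i₀) - p = p + 1 + m)
    (hpm : p = 0 ∨ ∃ i ∈ A, t i = t i₀ ∧ k i = p)
    (hlast : ∀ i ∈ A, t i = t i₀ → k i ≤ k i₀)
    (hBt : (B (t i₀))ᵀ = -B (t i₀)) (hBd : (B (t i₀)).det ≠ 0) :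
    ∃ Y : (Fin (k i₀) → Fin (n (t i₀))) → MvPolynomial (Crd n t k) ℂ,
      Elim i₀ (LocF B A F) (LocF B (A.erase i₀) (fun j : {j // d j i₀ = 0} => F j.1)) Y
        (∑ j, dropHom i₀ (fun i => (d (e j).1 i : ℤ)) +
          (n (t i₀) - p - k i₀) •
            (fun i => if i ∈ A.erase i₀ ∧ t i = t i₀ ∧ k i = p then 1 else 0) +
          (k i₀ - p) • (fun i => if i ∈ A.erase i₀ ∧ t i = t i₀ ∧ k i = p then 1 else 0)) := by
  have hp' : p = 0 ∨ p = n (t i₀) ∨ ∃ i ∈ A.erase i₀, t i = t i₀ ∧ k i = p := by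
    rcases hpm with h | ⟨i, hi, h1, h2⟩
    · exact Or.inl h
    · exact Or.inr (Or.inr ⟨i, Finset.mem_erase.mpr ⟨by rintro rfl; omega, hi⟩, h1, h2⟩)
  have hiso : ∀ (v : ∀ τ, ℕ → Fin (n τ) → ℂ) (c : I → ℂ) (z : Crd n t k → ℂ),
      IsFlag B (A.erase i₀) v c z → ∀ s s', s < p → s' < p →
        bil (B (t i₀)) (v (t i₀) s) (v (t i₀) s') = 0 := by
    intro v c z hz
    rcases hpm with h | ⟨i, hi, h1, h2⟩
    · intro s s' hs _
      omega
    · exact iso_of_step (hz.iso i (Finset.mem_erase.mpr ⟨by rintro rfl; omega, hi⟩)) h1 h2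
  obtain ⟨P, hPh, hPv⟩ := exists_nb hinj hk (A.erase i₀) (t i₀) p hp'
  have hple : p ≤ n (t i₀) := by
    have := (hk i₀).2
    clear hp' hpm
    omega
  have hN : n (t i₀) = n (t i₀) - p + p := (Nat.sub_add_cancel hple).symm
  refine exists_elimination_of hk hF hi₀ hone (q := n (t i₀) - p) (Nat.sub_le _ _) hfin e
    (Or.inl ⟨hb, hpn⟩) hPh
    (by rw [if_neg (fun h => Finset.notMem_erase i₀ A h.1)]) (fun ρ => yP_hom (B (t i₀)) hN hPh ρ)
    (by rw [if_neg (fun h => Finset.notMem_erase i₀ A h.1)]) ?_ ?_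
  · intro x v c hvc
    obtain ⟨C, hC, hC1⟩ := hPv v c x hvc.frame (fun i hi => hvc.ne i (Finset.mem_of_mem_erase hi))
      (fun i hi => hvc.eq i (Finset.mem_of_mem_erase hi))
    have hisob := iso_of_step (hvc.iso i₀ hi₀) rfl hb
    obtain ⟨v₁, hv₁, hv₁s, hperp⟩ := exists_adapted (hvc.frame (t i₀)) (p := p) (b := p + 1)
      (by omega) (fun s s' hs hs' => hisob s s' (by omega) hs')
    have hperp' : ∀ s, s < n (t i₀) - p → ∀ s', s' < p →
        bil (B (t i₀)) (v₁ s') (v₁ s) = 0 := by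
      intro s hs s' hs'
      rw [hv₁s s' (by omega)]
      exact hperp s hs s' hs'
    have hP1 : ∀ ρ, eval x (P ρ) = C * mn v₁ p ρ := by
      intro ρ
      rw [hC1]
      congr 1
      exact (mn_congr (fun s hs => hv₁s s (by omega)) ρ).symm
    obtain ⟨C', hC', hC'1⟩ := yP_eq hBd hN hv₁ hC hP1 hperp'
    refine ⟨v₁, C, C', hv₁, hC, hC', hP1, hC'1, fun ρ =>
      mn_congr (fun s hs => hv₁s s (by omega)) ρ, fun v' hv' l hl => ?_⟩
    obtain ⟨c', hc'⟩ := replace_last hinj (hvc.erase i₀) hi₀ hb hlast hBt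
      (fun s hs => hv₁s s (by omega)) hperp' (by omega) hv' hl
    exact ⟨_, c', hc'⟩
  · intro z v c hvc
    obtain ⟨v₁, hv₁, hv₁s, hperp⟩ := exists_adapted (hvc.frame (t i₀)) (p := p) (b := p)
      (by omega) (fun s s' hs hs' => hiso v c z hvc s s' hs hs')
    have hperp' : ∀ s, s < n (t i₀) - p → ∀ s', s' < p →
        bil (B (t i₀)) (v₁ s') (v₁ s) = 0 := by
      intro s hs s' hs'
      rw [hv₁s s' (by omega)]
      exact hperp s hs s' hs'
    refine ⟨v₁, hv₁, fun v' hv' => ?_⟩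
    obtain ⟨c', hc'⟩ := replace_last (x := z) hinj (by rw [hvc.erase_self]; exact hvc) hi₀ hb
      hlast hBt (fun s hs => hv₁s s (by omega)) hperp' (by omega) hv' one_ne_zero
    exact ⟨_, c', hc'⟩

/-! ### the count for the last step -/

lemma card_sigma (u ε : ℕ) :
    2 * Nat.card (Σ s : Fin u, Fin (s.1 + ε)) + u = u * u + 2 * ε * u := by
  rw [Nat.card_eq_fintype_card, Fintype.card_sigma]
  simp only [Fintype.card_fin]
  rw [Finset.sum_add_distrib, Finset.sum_const, Finset.card_univ, Fintype.card_fin, smul_eq_mul,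
    Fin.sum_univ_eq_sum_range (fun s => s) u]
  have h := Finset.sum_range_id_mul_two u
  rcases Nat.eq_zero_or_pos u with h0 | h0
  · subst h0; simp
  · obtain ⟨w, rfl⟩ := Nat.exists_eq_add_of_le h0
    rw [Nat.add_sub_cancel_left] at h
    nlinarith

theorem count_last [Fintype I] [Finite J] {ε : ℕ}
    (hB : (ε = 0 ∧ (B (t i₀))ᵀ = -B (t i₀)) ∨ (ε = 1 ∧ (B (t i₀))ᵀ = B (t i₀)))
    (hinj : ∀ i j, t i = t j → k i = k j → i = j)
    (hk : ∀ i, 0 < k i ∧ k i < n (t i))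
    (hF : ∀ j, MultiHom Sigma.fst (F j) (fun i => (d j i : ℤ))) (hi₀ : i₀ ∈ A)
    {x : Crd n t k → ℂ} (hx : x ∈ LocF B A F)
    (hfin : FinPts Sigma.fst (fib Sigma.fst (LocF B A F) i₀ x)) {p : ℕ} (hpb : p < k i₀)
    (hp : ∀ i ∈ A, t i = t i₀ → k i < k i₀ → k i ≤ p)
    (hlast : ∀ i ∈ A, t i = t i₀ → k i ≤ k i₀) :
    (k i₀ - p) * (n (t i₀) - k i₀) ≤ Nat.card {j // d j i₀ ≠ 0} +
      ((k i₀ - p) * p + Nat.card (Σ s : Fin (k i₀ - p), Fin (s.1 + ε))) := by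
  classical
  obtain ⟨⟨v, c, hvc⟩, hxF⟩ := id hx
  set q := n (t i₀) with hqd
  have hbq : k i₀ ≤ q := (hk i₀).2.le
  choose g hg using fun s s' => exists_bil_poly (B (t i₀)) (v (t i₀)) p (k i₀) q s s'
  set G : (Fin (k i₀ - p) × Fin p) ⊕ (Σ s : Fin (k i₀ - p), Fin (s.1 + ε)) →
      MvPolynomial (Fin (k i₀ - p) × Fin (q - k i₀)) ℂ :=
    Sum.elim (fun a => g (p + a.1) a.2) (fun a => g (p + a.1) (p + a.2)) with hG
  have hcard : Nat.card ((Fin (k i₀ - p) × Fin p) ⊕ (Σ s : Fin (k i₀ - p), Fin (s.1 + ε))) =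
      (k i₀ - p) * p + Nat.card (Σ s : Fin (k i₀ - p), Fin (s.1 + ε)) := by
    rw [Nat.card_sum, Nat.card_eq_fintype_card (α := Fin (k i₀ - p) × Fin p), Fintype.card_prod,
      Fintype.card_fin, Fintype.card_fin]
  rw [← hcard]
  have hisob := hvc.iso i₀ hi₀
  have hεs : ∀ a : (Σ s : Fin (k i₀ - p), Fin (s.1 + ε)), p + a.2.1 < k i₀ := by
    rintro ⟨s, s'⟩
    have h1 := s.2
    have h2 := s'.2
    rcases hB with ⟨h, -⟩ | ⟨h, -⟩ <;> subst h <;> simp only at * <;> omega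
  have hz : ∀ s s', s < k i₀ → s' < k i₀ → eval 0 (g s s') = 0 := by
    intro s s' hs hs'
    rw [hg, dfm_zero]
    exact hisob s s' hs hs'
  refine card_ge hF (hvc.eq i₀ hi₀) hxF G ?_ ?_
  · rintro (⟨s, s'⟩ | a)
    · rw [hG, Sum.elim_inl]
      exact hz _ _ (by have := s.2; omega) (by have := s'.2; simp only; omega)
    · rw [hG, Sum.elim_inr]
      exact hz _ _ (by have := a.1.2; omega) (hεs a)
  · refine finite_dfm (hvc.frame (t i₀)) hbq le_rfl (hvc.ne i₀ hi₀) hfin fun ζ hζ => ⟨?_, hζ.2⟩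
    -- isotropy of the deformed frame
    set w := dfm (v (t i₀)) p (k i₀) q ζ with hw
    have hwlow : ∀ s, s < p → w s = v (t i₀) s := by
      intro s hs
      rw [hw]
      unfold dfm
      rw [dif_neg (by omega)]
    have hsym : ∃ θ : ℂ, (B (t i₀))ᵀ = θ • B (t i₀) := by
      rcases hB with ⟨-, h⟩ | ⟨-, h⟩
      · exact ⟨-1, by rw [h, neg_one_smul]⟩
      · exact ⟨1, by rw [h, one_smul]⟩
    obtain ⟨θ, hθ⟩ := hsym
    have h1 : ∀ s s', p ≤ s → s < k i₀ → s' < p → bil (B (t i₀)) (w s) (w s') = 0 := by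
      intro s s' hs hs1 hs'
      have h2 := hζ.1 (Sum.inl (⟨s - p, by omega⟩, ⟨s', hs'⟩))
      rw [hG, Sum.elim_inl, hg] at h2
      simp only at h2
      rw [show p + (s - p) = s by omega] at h2
      exact h2
    have h2 : ∀ s s', p ≤ s' → s' < s → s < k i₀ → bil (B (t i₀)) (w s) (w s') = 0 := by
      intro s s' hs hs1 hs2
      have h3 := hζ.1 (Sum.inr ⟨⟨s - p, by omega⟩, ⟨s' - p, by simp only; omega⟩⟩)
      rw [hG, Sum.elim_inr, hg] at h3
      simp only at h3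
      rw [show p + (s - p) = s by omega, show p + (s' - p) = s' by omega] at h3
      exact h3
    have h3 : ∀ s, p ≤ s → s < k i₀ → bil (B (t i₀)) (w s) (w s) = 0 := by
      intro s hs hs1
      rcases hB with ⟨-, h⟩ | ⟨h, -⟩
      · have h5 := bil_swap (B := B (t i₀)) (ε := -1) (by rw [h, neg_one_smul]) (w s) (w s)
        linear_combination (1 / 2 : ℂ) * h5
      · have h3 := hζ.1 (Sum.inr ⟨⟨s - p, by omega⟩, ⟨s - p, by simp only; omega⟩⟩)
        rw [hG, Sum.elim_inr, hg] at h3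
        simp only at h3
        rw [show p + (s - p) = s by omega] at h3
        exact h3
    have hall : ∀ s s', s < k i₀ → s' < k i₀ → bil (B (t i₀)) (w s) (w s') = 0 := by
      intro s s' hs hs'
      rcases Nat.lt_or_ge s p with h4 | h4 <;> rcases Nat.lt_or_ge s' p with h5 | h5
      · rw [hwlow s h4, hwlow s' h5]
        exact hisob s s' hs hs'
      · rw [bil_swap hθ, h1 s' s h5 hs' h4, mul_zero]
      · exact h1 s s' h4 hs h5
      · rcases Nat.lt_trichotomy s s' with h6 | h6 | h6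
        · rw [bil_swap hθ, h2 s' s h4 h6 hs', mul_zero]
        · rw [h6]; exact h3 s' h5 hs'
        · exact h2 s s' h5 h6 hs
    have hle : ∀ i ∈ A.erase i₀, t i = t i₀ → k i ≤ p := by
      intro i hi h4
      obtain ⟨hi1, hi2⟩ := Finset.mem_erase.mp hi
      have h5 := hlast i hi2 h4
      have h6 : k i ≠ k i₀ := fun h6 => hi1 (hinj i i₀ h4 h6)
      exact hp i hi2 h4 (by omega)
    obtain ⟨c', hc'⟩ := (hvc.erase i₀).replace hi₀ (dfm_frame (hvc.frame (t i₀)) le_rfl ζ)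
      (fun i hi h4 => ⟨1, one_ne_zero, fun ρ => by rw [dfm_low ζ (hle i hi h4), one_mul]⟩)
      (fun i hi h4 s s' hs hs' => by
        have h5 := hlast i hi h4
        exact hall s s' (by omega) (by omega)) (hvc.ne i₀ hi₀)
    exact ⟨_, c', hc'⟩

end Pool.Agent.H40.Cls
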