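import Pool.Agent.H40.Cls.Perp

/-!
# Isotropic flags and their coordinates; finiteness of the local solutions; Krull
-/

set_option autoImplicit false

namespace Pool.Agent.H40.Cls

open Matrix MvPolynomial Pool.Agent.H22.Sub Pool.Agent.H40.Flag

variable {T I : Type} {n : T → ℕ} {t : I → T} {k : I → ℕ}
  {B : ∀ τ, Matrix (Fin (n τ)) (Fin (n τ)) ℂ}

/-- `x` has the coordinates of the isotropic flags given by the frames `v`, with factors `c`, for
the steps in `A`; its other coordinates are zero. -/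
structure IsFlag (B : ∀ τ, Matrix (Fin (n τ)) (Fin (n τ)) ℂ) (A : Finset I)
    (v : ∀ τ, ℕ → Fin (n τ) → ℂ) (c : I → ℂ) (x : Crd n t k → ℂ) : Prop where
  frame : ∀ τ, IsFrame (v τ)
  ne : ∀ i ∈ A, c i ≠ 0
  eq : ∀ i ∈ A, ∀ ρ, x ⟨i, ρ⟩ = c i * mn (v (t i)) (k i) ρ
  out : ∀ i, i ∉ A → ∀ ρ, x ⟨i, ρ⟩ = 0
  iso : ∀ i ∈ A, ∀ s s', s < k i → s' < k i → bil (B (t i)) (v (t i) s) (v (t i) s') = 0

/-- the points with steps in `A` at which the `F j` vanish -/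
def LocF (B : ∀ τ, Matrix (Fin (n τ)) (Fin (n τ)) ℂ) (A : Finset I) {J : Type}
    (F : J → MvPolynomial (Crd n t k) ℂ) : Set (Crd n t k → ℂ) :=
  {x | (∃ v c, IsFlag B A v c x) ∧ ∀ j, eval x (F j) = 0}

lemma IsFlag.ne_zero {A : Finset I} {v : ∀ τ, ℕ → Fin (n τ) → ℂ} {c : I → ℂ}
    {x : Crd n t k → ℂ} (h : IsFlag B A v c x) {i : I} (hi : i ∈ A) (hk : k i ≤ n (t i)) :
    ∃ s : Crd n t k, s.1 = i ∧ x s ≠ 0 := by
  obtain ⟨ρ, hρ⟩ := mn_ne (h.frame (t i)) hk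
  exact ⟨⟨i, ρ⟩, rfl, by rw [h.eq i hi]; exact mul_ne_zero (h.ne i hi) hρ⟩

lemma bil_update [DecidableEq T] (v : ∀ τ, ℕ → Fin (n τ) → ℂ) {t₀ τ : T} (h : τ = t₀)
    (v' : ℕ → Fin (n t₀) → ℂ) (s s' : ℕ) :
    bil (B τ) (Function.update v t₀ v' τ s) (Function.update v t₀ v' τ s') =
      bil (B t₀) (v' s) (v' s') := by
  subst h
  rw [Function.update_self]

lemma IsFlag.erase [DecidableEq I] {A : Finset I} {v : ∀ τ, ℕ → Fin (n τ) → ℂ} {c : I → ℂ}
    {x : Crd n t k → ℂ} (h : IsFlag B A v c x) (i₀ : I) :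
    IsFlag B (A.erase i₀) v c (gl i₀ x 0) := by
  refine ⟨h.frame, fun i hi => h.ne i (Finset.mem_of_mem_erase hi), fun i hi ρ => ?_,
    fun i hi ρ => ?_, fun i hi => h.iso i (Finset.mem_of_mem_erase hi)⟩
  · rw [gl_ne _ _ (Finset.ne_of_mem_erase hi)]
    exact h.eq i (Finset.mem_of_mem_erase hi) ρ
  · by_cases h1 : i = i₀
    · subst h1
      rw [gl_same]
      rfl
    · rw [gl_ne _ _ h1]
      exact h.out i (fun h2 => hi (Finset.mem_erase.mpr ⟨h1, h2⟩)) ρ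

/-- Replacing the frame of the space of the step `i₀` and the coordinates of this step. -/
lemma IsFlag.replace [DecidableEq I] [DecidableEq T] {A : Finset I}
    {v : ∀ τ, ℕ → Fin (n τ) → ℂ} {c : I → ℂ} {x : Crd n t k → ℂ} {i₀ : I}
    (h : IsFlag B (A.erase i₀) v c (gl i₀ x 0)) (hi₀ : i₀ ∈ A)
    {v' : ℕ → Fin (n (t i₀)) → ℂ} (hv' : IsFrame v')
    (hm : ∀ i ∈ A.erase i₀, t i = t i₀ → ∃ C : ℂ, C ≠ 0 ∧ ∀ ρ : Fin (k i) → Fin (n (t i₀)),
      mn v' (k i) ρ = C * mn (v (t i₀)) (k i) ρ)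
    (hiso : ∀ i ∈ A, t i = t i₀ → ∀ s s', s < k i → s' < k i →
      bil (B (t i₀)) (v' s) (v' s') = 0) {l : ℂ} (hl : l ≠ 0) :
    ∃ c', IsFlag B A (Function.update v (t i₀) v') c' (gl i₀ x (fun ρ => l * mn v' (k i₀) ρ)) := by
  choose! C hC using hm
  refine ⟨fun i => if i = i₀ then l else if t i = t i₀ then c i / C i else c i, ?_, ?_, ?_, ?_, ?_⟩
  · intro τ
    by_cases hτ : τ = t i₀
    · subst hτ
      rw [Function.update_self]
      exact hv'
    · rw [Function.update_of_ne hτ]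
      exact h.frame τ
  · intro i hi
    split_ifs with h1 h2
    · exact hl
    · exact div_ne_zero (h.ne i (Finset.mem_erase.mpr ⟨h1, hi⟩))
        (hC i (Finset.mem_erase.mpr ⟨h1, hi⟩) h2).1
    · exact h.ne i (Finset.mem_erase.mpr ⟨h1, hi⟩)
  · intro i hi ρ
    by_cases h1 : i = i₀
    · subst h1
      rw [gl_same, if_pos rfl, Function.update_self]
    · rw [gl_ne _ _ h1, if_neg h1]
      have hie := Finset.mem_erase.mpr ⟨h1, hi⟩
      have h2 := h.eq i hie ρ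
      rw [gl_ne _ _ h1] at h2
      rw [h2]
      by_cases h3 : t i = t i₀
      · obtain ⟨h4, h5⟩ := hC i hie h3
        rw [if_pos h3, mn_update_frame v h3 v' h5]
        field_simp
      · rw [if_neg h3, Function.update_of_ne h3]
  · intro i hi ρ
    have h1 : i ≠ i₀ := by
      rintro rfl
      exact hi hi₀
    have h2 := h.out i (fun h => hi (Finset.mem_of_mem_erase h)) ρ
    rw [gl_ne _ _ h1] at h2
    rw [gl_ne _ _ h1, h2]
  · intro i hi s s' hs hs'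
    by_cases h3 : t i = t i₀
    · rw [bil_update v h3 v']
      exact hiso i hi h3 s s' hs hs'
    · rw [Function.update_of_ne h3]
      have h1 : i ≠ i₀ := by
        rintro rfl
        exact h3 rfl
      exact h.iso i (Finset.mem_erase.mpr ⟨h1, hi⟩) s s' hs hs'

/-! ### finiteness -/

/-- Deformations of a point of `LocF B A F` inside its finite fibre are finite in number. -/
theorem finite_dfm {A : Finset I} {J : Type} {F : J → MvPolynomial (Crd n t k) ℂ}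
    {x : Crd n t k → ℂ} {i₀ : I} {v₁ : ℕ → Fin (n (t i₀)) → ℂ} (hv₁ : IsFrame v₁)
    {p q : ℕ} (hbq : k i₀ ≤ q) (hq : q ≤ n (t i₀)) {l : ℂ} (hl : l ≠ 0)
    (hfin : FinPts Sigma.fst (fib Sigma.fst (LocF B A F) i₀ x))
    {Z : Set (Fin (k i₀ - p) × Fin (q - k i₀) → ℂ)}
    (hZ : ∀ ζ ∈ Z, gl i₀ x (fun ρ => l * mn (dfm v₁ p (k i₀) q ζ) (k i₀) ρ) ∈ LocF B A F) :
    Z.Finite := by
  classical
  obtain ⟨E, hE, h⟩ := hfin
  by_contra hinf
  set y : (Fin (k i₀ - p) × Fin (q - k i₀) → ℂ) → Crd n t k → ℂ := fun ζ =>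
    gl i₀ x (fun ρ => l * mn (dfm v₁ p (k i₀) q ζ) (k i₀) ρ) with hy
  have h1 : ∀ ζ ∈ Z, ∃ z ∈ E, SamePoint Sigma.fst z (y ζ) := by
    intro ζ hζ
    refine h _ ⟨hZ ζ hζ, fun s s' hss hs => ?_⟩
    obtain ⟨i, ρ⟩ := s
    obtain ⟨i', ρ'⟩ := s'
    change i = i' at hss
    change i ≠ i₀ at hs
    subst hss
    rw [hy]
    simp only
    rw [gl_ne _ _ hs, gl_ne _ _ hs, mul_comm]
  choose! f hf using h1
  obtain ⟨ζ, hζ, ζ', hζ', hne, heq⟩ := Set.Infinite.exists_ne_map_eq_of_mapsTo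
    (s := Z) hinf (fun ζ hζ => (hf ζ hζ).1) hE
  have h2 := (hf ζ hζ).2
  have h3 := (hf ζ' hζ').2
  rw [← heq] at h3
  obtain ⟨c', hc', h4⟩ := h2.symm.trans h3
  apply hne
  symm
  refine dfm_inj hv₁ hbq hq (c := c' i₀) fun ρ => ?_
  have h5 := h4 ⟨i₀, ρ⟩
  rw [hy] at h5
  simp only at h5
  rw [gl_same, gl_same] at h5
  apply mul_left_cancel₀ hl
  rw [h5]
  ring

/-- Krull's theorem: the number of equations is at least the number of parameters. -/
theorem card_ge {J : Type} [Finite J] {F : J → MvPolynomial (Crd n t k) ℂ} {d : J → I → ℕ}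
    (hF : ∀ j, MultiHom Sigma.fst (F j) (fun i => (d j i : ℤ))) {i₀ : I}
    {v : ℕ → Fin (n (t i₀)) → ℂ} {c : ℂ} {x : Crd n t k → ℂ}
    (hx : ∀ ρ, x ⟨i₀, ρ⟩ = c * mn v (k i₀) ρ) (hx0 : ∀ j, eval x (F j) = 0) {p q : ℕ}
    {K : Type} [Finite K] (G : K → MvPolynomial (Fin (k i₀ - p) × Fin (q - k i₀)) ℂ)
    (hG0 : ∀ κ, eval 0 (G κ) = 0)
    (hfin : {ζ | (∀ κ, eval ζ (G κ) = 0) ∧
      ∀ j, eval (gl i₀ x (fun ρ => c * mn (dfm v p (k i₀) q ζ) (k i₀) ρ)) (F j) = 0}.Finite) :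
    (k i₀ - p) * (q - k i₀) ≤ Nat.card {j // d j i₀ ≠ 0} + Nat.card K := by
  classical
  by_contra hcon
  push Not at hcon
  choose G' hG' using fun ρ => exists_dfm_poly v p (k i₀) q ρ
  set Hs : {j // d j i₀ ≠ 0} → MvPolynomial (Fin (k i₀ - p) × Fin (q - k i₀)) ℂ := fun j =>
    aeval (fun s : Crd n t k => if h : s.1 = i₀ then
      MvPolynomial.C c * G' (Equiv.sigmaSubtype i₀ ⟨s, h⟩) else MvPolynomial.C (x s)) (F j.1)
    with hHs
  have hval : ∀ j ζ, eval ζ (Hs j) =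
      eval (gl i₀ x (fun ρ => c * mn (dfm v p (k i₀) q ζ) (k i₀) ρ)) (F j.1) := by
    intro j ζ
    rw [hHs]
    simp only
    rw [eval_comp]
    congr 2
    funext s
    unfold gl glue
    split_ifs with h
    · rw [map_mul, eval_C, hG']
    · rw [eval_C]
  have h0 : gl i₀ x (fun ρ => c * mn (dfm v p (k i₀) q 0) (k i₀) ρ) = x := by
    refine gl_eq_self fun ρ => ?_
    rw [dfm_zero, hx]
  have hinf := Pool.Agent.H24.Ab.infinite_common_zero (Sum.elim Hs G) 0 (by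
    rintro (j | κ)
    · rw [Sum.elim_inl, hval, h0, hx0]
    · rw [Sum.elim_inr, hG0]) 1 (by simp) (by
      rw [Nat.card_sum, Nat.card_eq_fintype_card (α := Fin (k i₀ - p) × Fin (q - k i₀)),
        Fintype.card_prod, Fintype.card_fin, Fintype.card_fin]
      exact hcon)
  refine hinf (hfin.subset fun ζ hζ => ⟨fun κ => hζ.1 (Sum.inr κ), fun j => ?_⟩)
  by_cases hj : d j i₀ = 0
  · rw [eval_gl_of_zero x (hF j) (by rw [hj]; rfl)]
    exact hx0 j
  · rw [← hval ⟨j, hj⟩]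
    exact hζ.1 (Sum.inl ⟨j, hj⟩)

/-! ### the conditions of isotropy -/

lemma exists_bil_poly {N : ℕ} (B : Matrix (Fin N) (Fin N) ℂ) (v : ℕ → Fin N → ℂ) (p b q : ℕ)
    (s s' : ℕ) : ∃ G : MvPolynomial (Fin (b - p) × Fin (q - b)) ℂ,
      ∀ ζ, eval ζ G = bil B (dfm v p b q ζ s) (dfm v p b q ζ s') := by
  classical
  have h1 : ∀ (s : ℕ) (i : Fin N), ∃ g : MvPolynomial (Fin (b - p) × Fin (q - b)) ℂ,
      ∀ ζ, eval ζ g = dfm v p b q ζ s i := by
    intro s i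
    refine ⟨if h : p ≤ s ∧ s < b then MvPolynomial.C (v s i) +
      ∑ d : Fin (q - b), MvPolynomial.X (⟨s - p, by omega⟩, d) * MvPolynomial.C (v (b + d) i)
        else MvPolynomial.C (v s i), fun ζ => ?_⟩
    unfold dfm
    split_ifs with h
    · simp
    · simp
  choose g hg using h1
  refine ⟨∑ i, ∑ j, g s i * MvPolynomial.C (B i j) * g s' j, fun ζ => ?_⟩
  rw [bil_eq, map_sum]
  refine Finset.sum_congr rfl fun i _ => ?_
  rw [map_sum]
  refine Finset.sum_congr rfl fun j _ => ?_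
  rw [map_mul, map_mul, eval_C, hg, hg]

end Pool.Agent.H40.Cls
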