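import Pool.Agent.H40.Cls.Main

/-!
# The proof of the main theorem
-/

set_option autoImplicit false

namespace Pool.Agent.H40.Cls

open Matrix MvPolynomial Pool.Agent.H22.Sub Pool.Agent.H40.Flag

variable {T I : Type} {n : T → ℕ} {t : I → T} {k : I → ℕ} {κ : T → Kind}
  {B : ∀ τ, Matrix (Fin (n τ)) (Fin (n τ)) ℂ}

lemma arith_mid {u w m : ℕ} {a D c : ℤ} (hm : 1 ≤ m) (ha : a < 0)
    (h1 : ((u : ℤ) + 1) * (w + 1) ≤ c) (h2 : c ≤ D) (h3 : D - ((u : ℤ) + w + 2) ≤ m * a) :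
    (u = 0 ∨ w = 0) ∧ c = u + w + 1 ∧ c = D ∧ (m : ℤ) = 1 ∧ a = -1 := by
  have hm' : (1 : ℤ) ≤ m := by exact_mod_cast hm
  have hma : (m : ℤ) * a ≤ a := by nlinarith
  have h5 : (u : ℤ) * w ≤ 0 := by nlinarith
  have h6 : u = 0 ∨ w = 0 := by
    by_contra hcon
    push Not at hcon
    have h7 : 0 < u * w := Nat.mul_pos (Nat.pos_of_ne_zero hcon.1) (Nat.pos_of_ne_zero hcon.2)
    have h8 : (0 : ℤ) < (u : ℤ) * w := by exact_mod_cast h7
    omega
  have h7 : (u : ℤ) * w = 0 := by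
    rcases h6 with h | h <;> rw [h] <;> simp
  have h8 : ((u : ℤ) + 1) * (w + 1) = u + w + 1 := by ring_nf; rw [h7]; ring
  rw [h8] at h1
  have ham : a = -1 := by omega
  have hm1 : (m : ℤ) = 1 := by
    rw [ham] at h3
    omega
  refine ⟨h6, ?_, ?_, hm1, ham⟩
  · rw [ham, hm1] at h3; omega
  · rw [ham, hm1] at h3; omega

lemma card_le_sum {J : Type} [Fintype J] (f : J → ℕ) :
    (Nat.card {j // f j ≠ 0} : ℤ) ≤ ∑ j, (f j : ℤ) ∧
      ((Nat.card {j // f j ≠ 0} : ℤ) = ∑ j, (f j : ℤ) → ∀ j, f j ≠ 0 → f j = 1) := by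
  classical
  have h1 : (Nat.card {j // f j ≠ 0} : ℤ) = ∑ j, (if f j ≠ 0 then (1 : ℤ) else 0) := by
    rw [Nat.card_eq_fintype_card, Fintype.card_subtype, Finset.card_filter]
    push_cast
    rfl
  have h2 : ∀ j ∈ Finset.univ, (if f j ≠ 0 then (1 : ℤ) else 0) ≤ (f j : ℤ) := by
    intro j _
    split_ifs with h <;> omega
  rw [h1]
  refine ⟨Finset.sum_le_sum h2, fun heq j hj => ?_⟩
  have h3 := (Finset.sum_eq_sum_iff_of_le h2).mp heq j (Finset.mem_univ j)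
  rw [if_pos hj] at h3
  exact_mod_cast h3.symm

section

variable {A : Finset I} {i₀ : I} {J : Type} [Fintype J] [Fintype I]
    {F : J → MvPolynomial (Crd n t k) ℂ} {d : J → I → ℕ} {m : ℕ} {a : I → ℤ}

open Classical in
theorem main_mid (hinj : ∀ i j, t i = t j → k i = k j → i = j)
    (hk : ∀ i, 0 < k i ∧ k i < n (t i)) (hk2 : ∀ i, κ (t i) ≠ Kind.gl → 2 * k i ≤ n (t i))
    (hB : ∀ τ, IsForm (κ τ) (B τ)) (hm : 1 ≤ m)
    (hF : ∀ j, MultiHom Sigma.fst (F j) (fun i => (d j i : ℤ)))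
    (hd : ∀ j, ∀ i, i ∉ A → d j i = 0) (ha0 : ∀ i, i ∉ A → a i = 0)
    (ha : ∀ i ∈ A, ∀ p q, Nbr κ n t k A i p q → ∑ j, (d j i : ℤ) - ((q : ℤ) - p) ≤ m * a i)
    (hnef : IsNef Sigma.fst (LocF B A F) a) (hi₀ : i₀ ∈ A) (hlt : a i₀ < 0)
    (hX : (LocF B A F).Nonempty)
    (hfin : ∀ x ∈ LocF B A F, FinPts Sigma.fst (fib Sigma.fst (LocF B A F) i₀ x))
    (hmid : κ (t i₀) = Kind.gl ∨ ∃ i ∈ A, t i = t i₀ ∧ k i₀ < k i)
    (ih : ∀ a' : I → ℤ, (∀ i, i ∉ A.erase i₀ → a' i = 0) →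
      (∀ i ∈ A.erase i₀, ∀ p q, Nbr κ n t k (A.erase i₀) i p q →
        ∑ j : {j // d j i₀ = 0}, (d j.1 i : ℤ) - ((q : ℤ) - p) ≤ m * a' i) →
      IsNef Sigma.fst (LocF B (A.erase i₀) (fun j : {j // d j i₀ = 0} => F j.1)) a' →
      IsSemiample Sigma.fst (LocF B (A.erase i₀) (fun j : {j // d j i₀ = 0} => F j.1)) a') :
    IsSemiample Sigma.fst (LocF B A F) a := by
  obtain ⟨p, q, hN⟩ := exists_nbr κ n t k A i₀
  have hpb : p < k i₀ := hN.lt_low hk
  have hp : ∀ i ∈ A, t i = t i₀ → k i < k i₀ → k i ≤ p := fun i hi h1 h2 =>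
    hN.low.2 (Or.inr ⟨i, hi, h1, rfl, h2⟩)
  have hq : ∀ i ∈ A, t i = t i₀ → k i₀ < k i → q ≤ k i := fun i hi h1 h2 =>
    hN.high.2 (Or.inr ⟨i, hi, h1, rfl, h2⟩)
  have hpm : p = 0 ∨ ∃ i ∈ A, t i = t i₀ ∧ k i = p := by
    rcases hN.low.1 with h | ⟨i, hi, h1, h2, -⟩
    · exact Or.inl h
    · exact Or.inr ⟨i, hi, h1, h2⟩
  -- the next step
  have hqm' : (q = n (t i₀) ∧ κ (t i₀) = Kind.gl) ∨
      ∃ i ∈ A, t i = t i₀ ∧ k i = q ∧ k i₀ < q := by
    rcases hN.high.1 with h | ⟨i, hi, h1, h2, h3⟩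
    · rcases hmid with h4 | ⟨i, hi, h1, h2⟩
      · left
        rw [h4] at h
        exact ⟨h, h4⟩
      · have h3 := hq i hi h1 h2
        have h4 := hk2 i
        rw [h1] at h4
        cases h5 : κ (t i₀) with
        | gl =>
          left
          rw [h5] at h
          exact ⟨h, rfl⟩
        | sp =>
          rw [h5] at h h4
          have h6 := h4 (by simp)
          simp only [endv] at h
          omega
        | so =>
          right
          rw [h5] at h h4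
          have h6 := h4 (by simp)
          simp only [endv] at h
          exact ⟨i, hi, h1, by omega, by omega⟩
    · exact Or.inr ⟨i, hi, h1, h2, h3⟩
  have hbq : k i₀ < q := by
    rcases hqm' with h | ⟨_, _, _, _, h⟩
    · rw [h.1]; exact (hk i₀).2
    · exact h
  have hqn : q ≤ n (t i₀) := by
    rcases hqm' with h | ⟨i, _, h1, h2, _⟩
    · exact h.1.le
    · have := (hk i).2
      rw [h1] at this
      omega
  have hqm : (q = n (t i₀) ∧ B (t i₀) = 0) ∨ ∃ i ∈ A, t i = t i₀ ∧ k i = q := by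
    rcases hqm' with h | ⟨i, hi, h1, h2, _⟩
    · left
      have h1 := hB (t i₀)
      rw [h.2] at h1
      exact ⟨h.1, h1⟩
    · exact Or.inr ⟨i, hi, h1, h2⟩
  have hqe : ∀ i ∈ A, t i = t i₀ → k i = p → q ≤ endv (κ (t i)) (n (t i)) (k i) := by
    intro i _ h1 h2
    rw [h1, h2]
    rcases hqm' with h | ⟨j, hj, h3, h4, -⟩
    · rw [h.2]
      exact h.1.le
    · have h5 := hk2 j
      rw [h3] at h5
      cases h6 : κ (t i₀) with
      | gl => exact hqn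
      | sp =>
        have h7 := h5 (by rw [h6]; simp)
        simp only [endv]
        omega
      | so =>
        have h7 := h5 (by rw [h6]; simp)
        simp only [endv]
        omega
  -- the count
  have hcard : (k i₀ - p) * (q - k i₀) ≤ Nat.card {j // d j i₀ ≠ 0} := by
    obtain ⟨x, hx⟩ := hX
    obtain ⟨⟨v, c, hvc⟩, hxF⟩ := id hx
    have hiso : ∀ s s', s < q → s' < q →
        bil (B (t i₀)) (v (t i₀) s) (v (t i₀) s') = 0 := by
      rcases hqm with h | ⟨i, hi, h1, h2⟩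
      · intro s s' _ _
        rw [h.2]
        unfold bil
        rw [Matrix.zero_mulVec, dotProduct_zero]
      · exact iso_of_step (hvc.iso i hi) h1 h2
    have h1 := card_ge hF (hvc.eq i₀ hi₀) hxF (p := p) (q := q) (K := Empty)
      (fun κ => κ.elim) (fun κ => κ.elim) (finite_dfm (hvc.frame (t i₀)) hbq.le hqn
        (hvc.ne i₀ hi₀) (hfin x hx) fun ζ hζ => ⟨by
          obtain ⟨c', hc'⟩ := replace_adj hinj (hvc.erase i₀) hi₀ hp hq hbq.le hiso
            (adj_dfm (b := k i₀) (hvc.frame (t i₀)) hqn ζ) (hvc.ne i₀ hi₀)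
          exact ⟨_, c', hc'⟩, hζ.2⟩)
    rwa [Nat.card_of_isEmpty (α := Empty), add_zero] at h1
  obtain ⟨u, hu⟩ : ∃ u, k i₀ = p + 1 + u := ⟨k i₀ - p - 1, by omega⟩
  obtain ⟨w, hw⟩ : ∃ w, q = k i₀ + 1 + w := ⟨q - k i₀ - 1, by omega⟩
  have hle := card_le_sum (fun j => d j i₀)
  have hai := ha i₀ hi₀ p q hN
  obtain ⟨h6, h8, h9', hm1, ham⟩ := arith_mid (u := u) (w := w) hm hlt (by
    have h1 : k i₀ - p = u + 1 := by omega
    have h2 : q - k i₀ = w + 1 := by omega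
    rw [h1, h2] at hcard
    exact_mod_cast hcard) hle.1 (by
      have h4 : (q : ℤ) - p = u + w + 2 := by
        rw [hw, hu]
        push_cast
        ring
      rwa [h4] at hai)
  have hone : ∀ j, d j i₀ ≠ 0 → d j i₀ = 1 := hle.2 h9'
  have h8' : Fintype.card {j // d j i₀ ≠ 0} = u + w + 1 := by
    rw [← Nat.card_eq_fintype_card]
    exact_mod_cast h8
  let e : Fin (u + w + 1) ≃ {j // d j i₀ ≠ 0} :=
    (finCongr h8'.symm).trans (Fintype.equivFin {j // d j i₀ ≠ 0}).symm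
  obtain ⟨Y, E⟩ := elim_mid hinj hk hF hi₀ hone hqn hfin e (by
    rcases h6 with h | h
    · left
      constructor <;> omega
    · right
      constructor <;> omega) hpb hbq hpm hqm hp hq
  refine induct hm1 ham E (ω := fun i =>
    ((q - k i₀ : ℕ) : ℤ) * (if i ∈ A.erase i₀ ∧ t i = t i₀ ∧ k i = p then 1 else 0) +
    ((k i₀ - p : ℕ) : ℤ) * (if i ∈ A.erase i₀ ∧ t i = t i₀ ∧ k i = q then 1 else 0)) ?_ ?_ hd ha0
    ha ?_ hnef ih
  · intro i hi
    rw [if_neg (fun h => hi h.1), if_neg (fun h => hi h.1)]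
    simp
  · intro i hi
    rw [Pi.add_apply, Pi.add_apply, sum_drop hi e, Pi.smul_apply, Pi.smul_apply,
      nsmul_eq_mul, nsmul_eq_mul, add_assoc]
  · intro i hi p' q' hN'
    obtain ⟨hi1, hi2⟩ := Finset.mem_erase.mp hi
    obtain ⟨p₁, q₁, hN₁⟩ := exists_nbr κ n t k A i
    refine ⟨p₁, q₁, hN₁, ?_⟩
    have h10 := nbr_low hinj hi₀ hpb hbq hp hq hN₁ hN'
    have h11 := nbr_high_mid hinj hi₀ hpb hbq hp hq hqe hi2 hN₁ hN'
    have h13 : ((q - k i₀ : ℕ) : ℤ) *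
        (if i ∈ A.erase i₀ ∧ t i = t i₀ ∧ k i = p then (1 : ℤ) else 0) =
        ((if t i = t i₀ ∧ k i = p then q - k i₀ else 0 : ℕ) : ℤ) := by
      by_cases h : t i = t i₀ ∧ k i = p
      · rw [if_pos ⟨hi, h⟩, if_pos h, mul_one]
      · rw [if_neg (fun h' => h h'.2), if_neg h]; simp
    have h14 : ((k i₀ - p : ℕ) : ℤ) *
        (if i ∈ A.erase i₀ ∧ t i = t i₀ ∧ k i = q then (1 : ℤ) else 0) =
        ((if t i = t i₀ ∧ k i = q then k i₀ - p else 0 : ℕ) : ℤ) := by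
      by_cases h : t i = t i₀ ∧ k i = q
      · rw [if_pos ⟨hi, h⟩, if_pos h, mul_one]
      · rw [if_neg (fun h' => h h'.2), if_neg h]; simp
    rw [h13, h14]
    have h15 : ((p' + (if t i = t i₀ ∧ k i = q then k i₀ - p else 0) : ℕ) : ℤ) ≤ p₁ := by
      exact_mod_cast h10
    have h16 : ((q₁ + (if t i = t i₀ ∧ k i = p then q - k i₀ else 0) : ℕ) : ℤ) ≤ q' := by
      exact_mod_cast h11
    rw [Nat.cast_add] at h15 h16
    linarith

open Classical in
theorem main_last (hinj : ∀ i j, t i = t j → k i = k j → i = j)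
    (hk : ∀ i, 0 < k i ∧ k i < n (t i)) (hk2 : ∀ i, κ (t i) ≠ Kind.gl → 2 * k i ≤ n (t i))
    (hB : ∀ τ, IsForm (κ τ) (B τ)) (hm : 1 ≤ m)
    (hF : ∀ j, MultiHom Sigma.fst (F j) (fun i => (d j i : ℤ)))
    (hd : ∀ j, ∀ i, i ∉ A → d j i = 0) (ha0 : ∀ i, i ∉ A → a i = 0)
    (ha : ∀ i ∈ A, ∀ p q, Nbr κ n t k A i p q → ∑ j, (d j i : ℤ) - ((q : ℤ) - p) ≤ m * a i)
    (hnef : IsNef Sigma.fst (LocF B A F) a) (hi₀ : i₀ ∈ A) (hlt : a i₀ < 0)
    (hX : (LocF B A F).Nonempty)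
    (hfin : ∀ x ∈ LocF B A F, FinPts Sigma.fst (fib Sigma.fst (LocF B A F) i₀ x))
    (hmid : ¬ (κ (t i₀) = Kind.gl ∨ ∃ i ∈ A, t i = t i₀ ∧ k i₀ < k i))
    (ih : ∀ a' : I → ℤ, (∀ i, i ∉ A.erase i₀ → a' i = 0) →
      (∀ i ∈ A.erase i₀, ∀ p q, Nbr κ n t k (A.erase i₀) i p q →
        ∑ j : {j // d j i₀ = 0}, (d j.1 i : ℤ) - ((q : ℤ) - p) ≤ m * a' i) →
      IsNef Sigma.fst (LocF B (A.erase i₀) (fun j : {j // d j i₀ = 0} => F j.1)) a' →
      IsSemiample Sigma.fst (LocF B (A.erase i₀) (fun j : {j // d j i₀ = 0} => F j.1)) a') :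
    IsSemiample Sigma.fst (LocF B A F) a := by
  obtain ⟨p, q, hN⟩ := exists_nbr κ n t k A i₀
  have hpb : p < k i₀ := hN.lt_low hk
  have hp : ∀ i ∈ A, t i = t i₀ → k i < k i₀ → k i ≤ p := fun i hi h1 h2 =>
    hN.low.2 (Or.inr ⟨i, hi, h1, rfl, h2⟩)
  have hpm : p = 0 ∨ ∃ i ∈ A, t i = t i₀ ∧ k i = p := by
    rcases hN.low.1 with h | ⟨i, hi, h1, h2, -⟩
    · exact Or.inl h
    · exact Or.inr ⟨i, hi, h1, h2⟩
  push Not at hmid
  obtain ⟨hgl, hlast⟩ := hmid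
  have hq : q = endv (κ (t i₀)) (n (t i₀)) (k i₀) := by
    rcases hN.high.1 with h | ⟨i, hi, h1, h2, h3⟩
    · exact h
    · have := hlast i hi h1
      omega
  have h2k := hk2 i₀ hgl
  have hbn := (hk i₀).2
  obtain ⟨x, hx⟩ := hX
  have hle := card_le_sum (fun j => d j i₀)
  have hai := ha i₀ hi₀ p q hN
  cases hκ : κ (t i₀) with
  | gl => exact absurd hκ hgl
  | so =>
    exfalso
    have hB' := hB (t i₀)
    rw [hκ] at hB' hq
    simp only [endv] at hq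
    have h1 := count_last (ε := 1) (Or.inr ⟨rfl, hB'.1⟩) hinj hk hF hi₀ hx (hfin x hx) hpb hp hlast
    have h2 := card_sigma (k i₀ - p) 1
    refine arith_so (m := m) (a := a i₀) (D := ∑ j, (d j i₀ : ℤ))
      (c := Nat.card {j // d j i₀ ≠ 0}) (u := k i₀ - p) (M := n (t i₀) - k i₀ - p) hm hlt
      (by omega) (by omega) ?_ hle.1 (by
        have h3 : (q : ℤ) = n (t i₀) - 1 - k i₀ := by omega
        rw [h3] at hai
        linarith)
    have h3 : ((k i₀ - p : ℕ) : ℤ) = k i₀ - p := by omega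
    have h4 : ((n (t i₀) - k i₀ : ℕ) : ℤ) = n (t i₀) - k i₀ := by omega
    have h5 : (((k i₀ - p) * (n (t i₀) - k i₀) : ℕ) : ℤ) ≤
        ((Nat.card {j // d j i₀ ≠ 0} +
      ((k i₀ - p) * p + Nat.card (Σ s : Fin (k i₀ - p), Fin (s.1 + 1))) : ℕ) : ℤ) := by
      exact_mod_cast h1
    have h6 : ((2 * Nat.card (Σ s : Fin (k i₀ - p), Fin (s.1 + 1)) + (k i₀ - p) : ℕ) : ℤ) =
        (((k i₀ - p) * (k i₀ - p) + 2 * 1 * (k i₀ - p) : ℕ) : ℤ) := by
      exact_mod_cast h2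
    push_cast [h3, h4] at h5 h6
    linarith
  | sp =>
    have hB' := hB (t i₀)
    rw [hκ] at hB' hq
    simp only [endv] at hq
    have h1 := count_last (ε := 0) (Or.inl ⟨rfl, hB'.1⟩) hinj hk hF hi₀ hx (hfin x hx) hpb hp hlast
    have h2 := card_sigma (k i₀ - p) 0
    have h3 : ((k i₀ - p : ℕ) : ℤ) = k i₀ - p := by omega
    have h4 : ((n (t i₀) - k i₀ : ℕ) : ℤ) = n (t i₀) - k i₀ := by omega
    have h5 : (((k i₀ - p) * (n (t i₀) - k i₀) : ℕ) : ℤ) ≤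
        ((Nat.card {j // d j i₀ ≠ 0} +
      ((k i₀ - p) * p + Nat.card (Σ s : Fin (k i₀ - p), Fin (s.1 + 0))) : ℕ) : ℤ) := by
      exact_mod_cast h1
    have h6 : ((2 * Nat.card (Σ s : Fin (k i₀ - p), Fin (s.1 + 0)) + (k i₀ - p) : ℕ) : ℤ) =
        (((k i₀ - p) * (k i₀ - p) + 2 * 0 * (k i₀ - p) : ℕ) : ℤ) := by
      exact_mod_cast h2
    push_cast [h3, h4] at h5 h6
    obtain ⟨hu, hc, hcD, hm1, ham⟩ := arith_sp (m := m) (a := a i₀) (D := ∑ j, (d j i₀ : ℤ))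
      (c := Nat.card {j // d j i₀ ≠ 0}) (u := k i₀ - p) (M := n (t i₀) - k i₀ - p) hm hlt
      (by omega) (by omega) (by linarith) hle.1 (by
        have h3 : (q : ℤ) = n (t i₀) + 1 - k i₀ := by omega
        rw [h3] at hai
        linarith)
    have hb : k i₀ = p + 1 := by omega
    have hone : ∀ j, d j i₀ ≠ 0 → d j i₀ = 1 := hle.2 hcD
    obtain ⟨M, hM⟩ : ∃ M : ℕ, n (t i₀) - p = p + 1 + M := ⟨n (t i₀) - p - (p + 1), by omega⟩
    have h8' : Fintype.card {j // d j i₀ ≠ 0} = M := by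
      rw [← Nat.card_eq_fintype_card]
      omega
    let e : Fin M ≃ {j // d j i₀ ≠ 0} :=
      (finCongr h8'.symm).trans (Fintype.equivFin {j // d j i₀ ≠ 0}).symm
    obtain ⟨Y, E⟩ := elim_last hinj hk hF hi₀ hone hfin e hb hM hpm hlast hB'.1 hB'.2
    refine induct hm1 ham E (ω := fun i =>
      ((n (t i₀) - p - k i₀ : ℕ) : ℤ) *
        (if i ∈ A.erase i₀ ∧ t i = t i₀ ∧ k i = p then 1 else 0) +
      ((k i₀ - p : ℕ) : ℤ) * (if i ∈ A.erase i₀ ∧ t i = t i₀ ∧ k i = p then 1 else 0)) ?_ ?_ hd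
      ha0 ha ?_ hnef ih
    · intro i hi
      rw [if_neg (fun h => hi h.1)]
      simp
    · intro i hi
      rw [Pi.add_apply, Pi.add_apply, sum_drop hi e, Pi.smul_apply, Pi.smul_apply,
        nsmul_eq_mul, nsmul_eq_mul, add_assoc]
    · intro i hi p' q' hN'
      obtain ⟨hi1, hi2⟩ := Finset.mem_erase.mp hi
      obtain ⟨p₁, q₁, hN₁⟩ := exists_nbr κ n t k A i
      refine ⟨p₁, q₁, hN₁, ?_⟩
      have hlow : p' ≤ p₁ := by
        rcases hN'.low.1 with h3 | ⟨i', hi', h3, h4, h5⟩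
        · omega
        · exact hN₁.low.2 (Or.inr ⟨i', Finset.mem_of_mem_erase hi', h3, h4, h5⟩)
      have hhigh := nbr_high_of_ne hN₁ hN'
      by_cases h : t i = t i₀ ∧ k i = p
      · rw [if_pos ⟨hi, h⟩, mul_one, mul_one]
        have h10 : q₁ ≤ k i₀ := hN₁.high.2 (Or.inr ⟨i₀, hi₀, h.1.symm, rfl, by omega⟩)
        have h11 : q' = n (t i₀) + 1 - p := by
          rcases hN'.high.1 with h3 | ⟨i', hi', h3, h4, h5⟩
          · rw [h3, h.1, h.2, hκ]
            rfl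
          · exfalso
            obtain ⟨hi3, hi4⟩ := Finset.mem_erase.mp hi'
            have h12 := hlast i' hi4 (h3.trans h.1)
            have h13 : k i' ≠ k i₀ := fun h13 => hi3 (hinj i' i₀ (h3.trans h.1) h13)
            have h14 := hp i' hi4 (h3.trans h.1) (by omega)
            omega
        omega
      · rw [if_neg (fun h' => h h'.2)]
        simp only [mul_zero, add_zero]
        omega

end

open Classical in
theorem main [Fintype I] (hinj : ∀ i j, t i = t j → k i = k j → i = j)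
    (hk : ∀ i, 0 < k i ∧ k i < n (t i)) (hk2 : ∀ i, κ (t i) ≠ Kind.gl → 2 * k i ≤ n (t i))
    (hB : ∀ τ, IsForm (κ τ) (B τ)) (m : ℕ) (hm : 1 ≤ m) :
    ∀ (N : ℕ) (A : Finset I), A.card = N →
      ∀ (J : Type) [Fintype J] (F : J → MvPolynomial (Crd n t k) ℂ) (d : J → I → ℕ),
      (∀ j, MultiHom Sigma.fst (F j) (fun i => (d j i : ℤ))) →
      (∀ j, ∀ i, i ∉ A → d j i = 0) → ∀ a : I → ℤ, (∀ i, i ∉ A → a i = 0) →
      (∀ i ∈ A, ∀ p q, Nbr κ n t k A i p q →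
        ∑ j, (d j i : ℤ) - ((q : ℤ) - p) ≤ m * a i) →
      IsNef Sigma.fst (LocF B A F) a → IsSemiample Sigma.fst (LocF B A F) a := by
  intro N
  induction N with
  | zero =>
    intro A hA J _ F d hF hd a ha0 ha hnef
    rw [Finset.card_eq_zero] at hA
    subst hA
    exact semiample_of_nonneg (A := ∅) (fun x _ i hi => absurd hi (Finset.notMem_empty i)) ha0
      (fun i hi => absurd hi (Finset.notMem_empty i))
  | succ N ih =>
    intro A hA J _ F d hF hd a ha0 ha hnef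
    have hX1 : ∀ x ∈ LocF B A F, ∀ i ∈ A, ∃ s : Crd n t k, s.1 = i ∧ x s ≠ 0 := by
      rintro x ⟨⟨v, c, hvc⟩, -⟩ i hi
      exact hvc.ne_zero hi (hk i).2.le
    have hX2 : ∀ x ∈ LocF B A F, ∀ s : Crd n t k, s.1 ∉ A → x s = 0 := by
      rintro x ⟨⟨v, c, hvc⟩, -⟩ ⟨i, ρ⟩ hs
      exact hvc.out i hs ρ
    by_cases hneg : ∃ i ∈ A, a i < 0
    · obtain ⟨i₀, hi₀, hlt⟩ := hneg
      by_cases hX : (LocF B A F).Nonempty
      · have hfin : ∀ x ∈ LocF B A F, FinPts Sigma.fst (fib Sigma.fst (LocF B A F) i₀ x) :=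
          fun x hx => fib_finite hX1 hX2 hnef ha0 hi₀ hlt hx
        have hmem : ∀ i, i ∉ A.erase i₀ → i = i₀ ∨ i ∉ A := by
          intro i hi
          by_cases hii : i = i₀
          · exact Or.inl hii
          · exact Or.inr fun h => hi (Finset.mem_erase.mpr ⟨hii, h⟩)
        have ih' := fun a' h1 h2 h3 =>
          ih (A.erase i₀) (by rw [Finset.card_erase_of_mem hi₀, hA]; rfl)
          {j // d j i₀ = 0} (fun j => F j.1) (fun j => d j.1) (fun j => hF j.1)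
          (fun j i hi => by
            rcases hmem i hi with h | h
            · rw [h]; exact j.2
            · exact hd j.1 i h) a' h1 h2 h3
        by_cases hmid : κ (t i₀) = Kind.gl ∨ ∃ i ∈ A, t i = t i₀ ∧ k i₀ < k i
        · exact main_mid hinj hk hk2 hB hm hF hd ha0 ha hnef hi₀ hlt hX hfin hmid ih'
        · exact main_last hinj hk hk2 hB hm hF hd ha0 ha hnef hi₀ hlt hX hfin hmid ih'
      · rw [Set.not_nonempty_iff_eq_empty] at hX
        rw [hX]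
        exact fun x hx => absurd hx (Set.notMem_empty x)
    · push Not at hneg
      exact semiample_of_nonneg hX1 ha0 hneg

end Pool.Agent.H40.Cls
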