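import Pool.Agent.H40.Cls.Cases

/-!
# The main theorem
-/

set_option autoImplicit false

namespace Pool.Agent.H40.Cls

open Matrix MvPolynomial Pool.Agent.H22.Sub Pool.Agent.H40.Flag

variable {T I : Type} {n : T → ℕ} {t : I → T} {k : I → ℕ} {κ : T → Kind}
  {B : ∀ τ, Matrix (Fin (n τ)) (Fin (n τ)) ℂ}

/-- the neighbours of the step `i` among the steps in `A` -/
structure Nbr (κ : T → Kind) (n : T → ℕ) (t : I → T) (k : I → ℕ) (A : Finset I) (i : I)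
    (p q : ℕ) : Prop where
  low : IsGreatest {x | x = 0 ∨ ∃ j ∈ A, t j = t i ∧ k j = x ∧ x < k i} p
  high : IsLeast {x | x = endv (κ (t i)) (n (t i)) (k i) ∨
    ∃ j ∈ A, t j = t i ∧ k j = x ∧ k i < x} q

lemma exists_nbr (κ : T → Kind) (n : T → ℕ) (t : I → T) (k : I → ℕ) (A : Finset I) (i : I) :
    ∃ p q, Nbr κ n t k A i p q := by
  have h1 : BddAbove {x | x = 0 ∨ ∃ j ∈ A, t j = t i ∧ k j = x ∧ x < k i} := by
    refine ⟨k i, ?_⟩
    rintro x (rfl | ⟨j, -, -, -, h⟩)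
    · exact Nat.zero_le _
    · exact h.le
  have h2 : ({x | x = 0 ∨ ∃ j ∈ A, t j = t i ∧ k j = x ∧ x < k i} : Set ℕ).Nonempty :=
    ⟨0, Or.inl rfl⟩
  have h3 : ({x | x = endv (κ (t i)) (n (t i)) (k i) ∨
      ∃ j ∈ A, t j = t i ∧ k j = x ∧ k i < x} : Set ℕ).Nonempty :=
    ⟨_, Or.inl rfl⟩
  exact ⟨_, _, ⟨Nat.sSup_mem h2 h1, fun x hx => le_csSup h1 hx⟩,
    ⟨Nat.sInf_mem h3, fun x hx => Nat.sInf_le hx⟩⟩

lemma Nbr.lt_low (hk : ∀ i, 0 < k i ∧ k i < n (t i)) {A : Finset I} {i : I} {p q : ℕ}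
    (h : Nbr κ n t k A i p q) : p < k i := by
  rcases h.low.1 with h | ⟨_, _, _, _, h⟩
  · rw [h]; exact (hk i).1
  · exact h

open Classical in
/-- comparison of the neighbours below -/
lemma nbr_low (hinj : ∀ i j, t i = t j → k i = k j → i = j)
    {A : Finset I} {i₀ : I} (hi₀ : i₀ ∈ A) {p q : ℕ}
    (hpb : p < k i₀) (hbq : k i₀ < q)
    (hp : ∀ i ∈ A, t i = t i₀ → k i < k i₀ → k i ≤ p)
    (hq : ∀ i ∈ A, t i = t i₀ → k i₀ < k i → q ≤ k i)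
    {i : I} {p₁ q₁ p' q' : ℕ}
    (h1 : Nbr κ n t k A i p₁ q₁) (h' : Nbr κ n t k (A.erase i₀) i p' q') :
    p' + (if t i = t i₀ ∧ k i = q then k i₀ - p else 0) ≤ p₁ := by
  split_ifs with h
  · have h2 : k i₀ ≤ p₁ := h1.low.2 (Or.inr ⟨i₀, hi₀, h.1.symm, rfl, by omega⟩)
    have h3 : p' ≤ p := by
      rcases h'.low.1 with h3 | ⟨i', hi', h3, h4, h5⟩
      · omega
      · obtain ⟨hi1, hi2⟩ := Finset.mem_erase.mp hi'
        rcases Nat.lt_trichotomy (k i') (k i₀) with h6 | h6 | h6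
        · have := hp i' hi2 (h3.trans h.1) h6
          omega
        · exact absurd (hinj _ _ (h3.trans h.1) h6) hi1
        · have := hq i' hi2 (h3.trans h.1) h6
          omega
    omega
  · rw [add_zero]
    rcases h'.low.1 with h3 | ⟨i', hi', h3, h4, h5⟩
    · omega
    · exact h1.low.2 (Or.inr ⟨i', Finset.mem_of_mem_erase hi', h3, h4, h5⟩)

open Classical in
lemma nbr_high_of_ne {A : Finset I} {i₀ i : I} {p₁ q₁ p' q' : ℕ}
    (h1 : Nbr κ n t k A i p₁ q₁) (h' : Nbr κ n t k (A.erase i₀) i p' q') : q₁ ≤ q' := by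
  rcases h'.high.1 with h3 | ⟨i', hi', h3, h4, h5⟩
  · rw [h3]
    exact h1.high.2 (Or.inl rfl)
  · exact h1.high.2 (Or.inr ⟨i', Finset.mem_of_mem_erase hi', h3, h4, h5⟩)

open Classical in
/-- comparison of the neighbours above, first case -/
lemma nbr_high_mid (hinj : ∀ i j, t i = t j → k i = k j → i = j)
    {A : Finset I} {i₀ : I} (hi₀ : i₀ ∈ A) {p q : ℕ}
    (hpb : p < k i₀) (hbq : k i₀ < q)
    (hp : ∀ i ∈ A, t i = t i₀ → k i < k i₀ → k i ≤ p)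
    (hq : ∀ i ∈ A, t i = t i₀ → k i₀ < k i → q ≤ k i)
    (hqe : ∀ i ∈ A, t i = t i₀ → k i = p → q ≤ endv (κ (t i)) (n (t i)) (k i))
    {i : I} (hi : i ∈ A) {p₁ q₁ p' q' : ℕ}
    (h1 : Nbr κ n t k A i p₁ q₁) (h' : Nbr κ n t k (A.erase i₀) i p' q') :
    q₁ + (if t i = t i₀ ∧ k i = p then q - k i₀ else 0) ≤ q' := by
  split_ifs with h
  · have h2 : q₁ ≤ k i₀ := h1.high.2 (Or.inr ⟨i₀, hi₀, h.1.symm, rfl, by omega⟩)
    have h3 : q ≤ q' := by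
      rcases h'.high.1 with h3 | ⟨i', hi', h3, h4, h5⟩
      · rw [h3]
        exact hqe i hi h.1 h.2
      · obtain ⟨hi1, hi2⟩ := Finset.mem_erase.mp hi'
        rcases Nat.lt_trichotomy (k i') (k i₀) with h6 | h6 | h6
        · have := hp i' hi2 (h3.trans h.1) h6
          omega
        · exact absurd (hinj _ _ (h3.trans h.1) h6) hi1
        · have := hq i' hi2 (h3.trans h.1) h6
          omega
    omega
  · rw [add_zero]
    exact nbr_high_of_ne h1 h'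

/-! ### arithmetic -/

lemma arith_sp {m : ℕ} {a D c u M : ℤ} (hm : 1 ≤ m) (ha : a < 0) (hu : 1 ≤ u) (huM : u ≤ M)
    (h1 : 2 * (u * M) ≤ 2 * c + u * u - u) (h2 : c ≤ D) (h3 : D - (M + 1) ≤ m * a) :
    u = 1 ∧ c = M ∧ c = D ∧ (m : ℤ) = 1 ∧ a = -1 := by
  have hm' : (1 : ℤ) ≤ m := by exact_mod_cast hm
  have hma : (m : ℤ) * a ≤ a := by nlinarith
  have h4 : c ≤ M := by omega
  have hu1 : u = 1 := by
    by_contra hne
    have h5 : 2 ≤ u := by omega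
    nlinarith
  subst hu1
  have h5 : c = M := by omega
  have ham : a = -1 := by omega
  subst ham
  have hm1 : (m : ℤ) = 1 := by omega
  exact ⟨rfl, h5, by omega, hm1, rfl⟩

lemma arith_so {m : ℕ} {a D c u M : ℤ} (hm : 1 ≤ m) (ha : a < 0) (hu : 1 ≤ u) (huM : u ≤ M)
    (h1 : 2 * (u * M) ≤ 2 * c + u * u + u) (h2 : c ≤ D) (h3 : D - (M - 1) ≤ m * a) : False := by
  have hm' : (1 : ℤ) ≤ m := by exact_mod_cast hm
  have hma : (m : ℤ) * a ≤ a := by nlinarith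
  have h4 : c ≤ M - 2 := by omega
  nlinarith [sq_nonneg (2 * u - 3), mul_nonneg (sub_nonneg.mpr hu) (sub_nonneg.mpr huM)]

/-! ### the induction step -/

open Classical in
theorem induct {A : Finset I} {i₀ : I} {J : Type} [Fintype J] [Finite I]
    {F : J → MvPolynomial (Crd n t k) ℂ} {d : J → I → ℕ} {m : ℕ} (hm1 : (m : ℤ) = 1)
    {a : I → ℤ} (ham : a i₀ = -1)
    {Y : (Fin (k i₀) → Fin (n (t i₀))) → MvPolynomial (Crd n t k) ℂ} {δ : I → ℤ}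
    (E : Elim i₀ (LocF B A F) (LocF B (A.erase i₀) (fun j : {j // d j i₀ = 0} => F j.1)) Y δ)
    {ω : I → ℤ} (hω : ∀ i, i ∉ A.erase i₀ → ω i = 0)
    (hδ : ∀ i, i ≠ i₀ → δ i = ∑ j : {j // d j i₀ ≠ 0}, (d j.1 i : ℤ) + ω i)
    (hd : ∀ j, ∀ i, i ∉ A → d j i = 0) (ha0 : ∀ i, i ∉ A → a i = 0)
    (ha : ∀ i ∈ A, ∀ p q, Nbr κ n t k A i p q → ∑ j, (d j i : ℤ) - ((q : ℤ) - p) ≤ m * a i)
    (hr : ∀ i ∈ A.erase i₀, ∀ p' q', Nbr κ n t k (A.erase i₀) i p' q' →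
      ∃ p₁ q₁, Nbr κ n t k A i p₁ q₁ ∧ (q₁ : ℤ) - p₁ + ω i ≤ (q' : ℤ) - p')
    (hnef : IsNef Sigma.fst (LocF B A F) a)
    (ih : ∀ a' : I → ℤ, (∀ i, i ∉ A.erase i₀ → a' i = 0) →
      (∀ i ∈ A.erase i₀, ∀ p q, Nbr κ n t k (A.erase i₀) i p q →
        ∑ j : {j // d j i₀ = 0}, (d j.1 i : ℤ) - ((q : ℤ) - p) ≤ m * a' i) →
      IsNef Sigma.fst (LocF B (A.erase i₀) (fun j : {j // d j i₀ = 0} => F j.1)) a' →
      IsSemiample Sigma.fst (LocF B (A.erase i₀) (fun j : {j // d j i₀ = 0} => F j.1)) a') :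
    IsSemiample Sigma.fst (LocF B A F) a := by
  have Tr := E.trans
  obtain ⟨us, hus, hus0⟩ := E.unit ham
  have hnef' := Tr.nef hus hus0 hnef
  have hpa : ∀ i, i ≠ i₀ → ph i₀ δ a i = a i - δ i := by
    intro i hi
    rw [ph_apply, Pi.add_apply, Pi.smul_apply, dropHom_ne _ hi, ham]
    simp [sub_eq_add_neg]
  have hpa0 : ph i₀ δ a i₀ = 0 := by
    rw [ph_apply, Pi.add_apply, Pi.smul_apply, dropHom_self, E.deg]
    simp
  have hS := ih (ph i₀ δ a)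
    (fun i hi => by
      by_cases hii : i = i₀
      · rw [hii]; exact hpa0
      · have hiA : i ∉ A := fun h => hi (Finset.mem_erase.mpr ⟨hii, h⟩)
        rw [hpa i hii, ha0 i hiA, hδ i hii, hω i hi, Finset.sum_eq_zero]
        · simp
        · intro j _
          rw [hd j.1 i hiA]; rfl)
    (fun i hi p' q' hN' => by
      obtain ⟨hi1, hi2⟩ := Finset.mem_erase.mp hi
      obtain ⟨p₁, q₁, hN₁, h10⟩ := hr i hi p' q' hN'
      have h9 := ha i hi2 p₁ q₁ hN₁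
      rw [hpa i hi1, hδ i hi1, hm1, one_mul]
      rw [hm1, one_mul] at h9
      have h12 := Fintype.sum_subtype_add_sum_subtype (fun j => d j i₀ = 0)
        (fun j => (d j i : ℤ))
      rw [← h12] at h9
      linarith) hnef'
  have h9 := semiample_shift hus hus0 (Tr.semiample hS)
  have h10 : dropHom i₀ (ph i₀ δ a) + (a - dropHom i₀ (ph i₀ δ a)) = a := by abel
  rwa [h10] at h9

lemma sum_drop [Fintype I] {J : Type} [Fintype J] {d : J → I → ℕ} {i₀ i : I} (hi : i ≠ i₀)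
    [Fintype {j // d j i₀ ≠ 0}] {m : ℕ} (e : Fin m ≃ {j // d j i₀ ≠ 0}) :
    (∑ j, dropHom i₀ (fun i => (d (e j).1 i : ℤ))) i = ∑ j : {j // d j i₀ ≠ 0}, (d j.1 i : ℤ) := by
  rw [Finset.sum_apply, ← Equiv.sum_comp e]
  exact Finset.sum_congr rfl fun j _ => dropHom_ne _ hi

end Pool.Agent.H40.Cls
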