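import Pool.Agent.H40.Cls.Bil
import Pool.Agent.H40.Flag.Step

/-!
# The Plücker coordinates of the orthogonal space
-/

set_option autoImplicit false

namespace Pool.Agent.H40.Cls

open Matrix MvPolynomial Pool.Agent.H22.Sub Pool.Agent.H40.Flag

variable {N : ℕ}

/-- the Gram determinant of complementary parts is not zero -/
lemma gram_ne {B : Matrix (Fin N) (Fin N) ℂ} (hBd : B.det ≠ 0) {v : ℕ → Fin N → ℂ}
    (hv : IsFrame v) {p : ℕ} (hp : p ≤ N)
    (hB : ∀ s, s < N - p → ∀ s', s' < p → bil B (v s') (v s) = 0) :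
    Matrix.det (Matrix.of fun r s : Fin p => bil B (v r) (v (N - p + s))) ≠ 0 := by
  classical
  intro hdet
  obtain ⟨c, hc0, hc⟩ := Matrix.exists_vecMul_eq_zero_iff.mpr hdet
  have hli := (isFrame_iff v).mp hv
  set w : Fin N → ℂ := ∑ r : Fin p, c r • v r with hw
  -- `w` is orthogonal to everything
  have h1 : ∀ s : ℕ, s < N → bil B w (v s) = 0 := by
    intro s hs
    have h2 : ∀ A : Finset (Fin p), bil B (∑ r ∈ A, c r • v r) (v s) =
        ∑ r ∈ A, c r * bil B (v r) (v s) := by
      intro A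
      induction A using Finset.induction_on with
      | empty => simp [bil_zero_left]
      | insert r A hr ih => rw [Finset.sum_insert hr, Finset.sum_insert hr, bil_add_left,
          bil_smul_left, ih]
    rw [hw, h2]
    by_cases hs' : s < N - p
    · exact Finset.sum_eq_zero fun r _ => by rw [hB s hs' r r.2, mul_zero]
    · have h3 := congrFun hc ⟨s - (N - p), by omega⟩
      rw [Matrix.vecMul, dotProduct, Pi.zero_apply] at h3
      simp only [Matrix.of_apply] at h3
      rw [show N - p + (s - (N - p)) = s by omega] at h3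
      exact h3
  -- hence `w = 0`
  have h2 : w ᵥ* B = 0 := by
    have hspan : Submodule.span ℂ (Set.range fun s : Fin N => v s) = ⊤ := by
      apply hli.span_eq_top_of_card_eq_finrank'
      rw [Fintype.card_fin, Module.finrank_fin_fun]
    have h3 : ∀ u : Fin N → ℂ, (w ᵥ* B) ⬝ᵥ u = 0 := by
      intro u
      rw [← Matrix.dotProduct_mulVec]
      have hu : u ∈ Submodule.span ℂ (Set.range fun s : Fin N => v s) := by
        rw [hspan]; trivial
      have h4 := bil_span (B := B) (X := {w}) (Y := Set.range fun s : Fin N => v s)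
        (fun a ha b hb => by
          rw [Set.mem_singleton_iff.mp ha]
          obtain ⟨s, rfl⟩ := hb
          exact h1 s s.2) (Submodule.mem_span_singleton_self w) hu
      exact h4
    exact dotProduct_eq_zero _ h3
  have h3 : w = 0 := by
    by_contra hne
    exact hBd (Matrix.exists_vecMul_eq_zero_iff.mp ⟨w, hne, h2⟩)
  apply hc0
  funext r
  have h4 := hli.comp (Fin.castLE hp) (Fin.castLE_injective hp)
  exact (Fintype.linearIndependent_iff.mp h4 c (by rw [← h3, hw]; rfl)) r

section Poly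

variable {S I : Type} {π : S → I} {p : ℕ}

/-- the Plücker coordinates of the orthogonal space in terms of those `P` of the space -/
noncomputable def yP (B : Matrix (Fin N) (Fin N) ℂ) (h : N = N - p + p)
    (P : (Fin p → Fin N) → MvPolynomial S ℂ) (ρ : Fin (N - p) → Fin N) : MvPolynomial S ℂ :=
  ∑ σ : Fin p → Fin N, (∑ ρ' : Fin p → Fin N, MvPolynomial.C (∏ i, B (ρ' i) (σ i)) * P ρ') *
    MvPolynomial.C (Matrix.det (Matrix.of fun r s : Fin N =>
      if Fin.append ρ σ (Fin.cast h r) = s then (1 : ℂ) else 0))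

lemma yP_hom (B : Matrix (Fin N) (Fin N) ℂ) (h : N = N - p + p)
    {P : (Fin p → Fin N) → MvPolynomial S ℂ} {wp : I → ℤ} (hP : ∀ ρ, MultiHom π (P ρ) wp)
    (ρ : Fin (N - p) → Fin N) : MultiHom π (yP B h P ρ) wp := by
  unfold yP
  refine IsWeightedHomogeneous.sum _ _ _ fun σ _ => ?_
  have h1 : MultiHom π (∑ ρ' : Fin p → Fin N, MvPolynomial.C (∏ i, B (ρ' i) (σ i)) * P ρ') wp :=
    IsWeightedHomogeneous.sum _ _ _ fun ρ' _ => (hP ρ').C_mul _
  have h2 := h1.mul (isWeightedHomogeneous_C (cdeg π) (Matrix.det (Matrix.of fun r s : Fin N =>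
      if Fin.append ρ σ (Fin.cast h r) = s then (1 : ℂ) else 0)))
  rwa [add_zero] at h2

theorem yP_eq {B : Matrix (Fin N) (Fin N) ℂ} (hBd : B.det ≠ 0) (h : N = N - p + p)
    {P : (Fin p → Fin N) → MvPolynomial S ℂ} {z : S → ℂ} {v : ℕ → Fin N → ℂ} (hv : IsFrame v)
    {C : ℂ} (hC : C ≠ 0) (hP : ∀ ρ, eval z (P ρ) = C * mn v p ρ)
    (hB : ∀ s, s < N - p → ∀ s', s' < p → bil B (v s') (v s) = 0) :
    ∃ C' : ℂ, C' ≠ 0 ∧ ∀ ρ, eval z (yP B h P ρ) = C' * mn v (N - p) ρ := by
  classical
  have hfull := hv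
  unfold IsFrame at hfull
  have hg := gram_ne hBd hv (p := p) (by omega) hB
  set Γ : Matrix (Fin p) (Fin p) ℂ := Matrix.of fun r s => bil B (v r) (v (N - p + s)) with hΓ
  have hbil : ∀ (a s : ℕ), ∑ i, (∑ j, v a j * B j i) * v s i = bil B (v a) (v s) := by
    intro a s
    rw [bil_eq, Finset.sum_comm]
    refine Finset.sum_congr rfl fun i _ => ?_
    rw [Finset.sum_mul]
  have h1 : ∀ σ : Fin p → Fin N,
      eval z (∑ ρ' : Fin p → Fin N, MvPolynomial.C (∏ i, B (ρ' i) (σ i)) * P ρ') =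
      C * ∑ τ : Equiv.Perm (Fin p), (Equiv.Perm.sign τ : ℂ) *
        ∏ r, ∑ j, v (τ r) j * B j (σ r) := by
    intro σ
    have h2 := sum_mn (m := p) (fun (r : Fin p) (i : Fin N) => B i (σ r)) v
    rw [det_row] at h2
    rw [map_sum]
    have h3 : ∀ ρ' : Fin p → Fin N, eval z (MvPolynomial.C (∏ i, B (ρ' i) (σ i)) * P ρ') =
        C * ((∏ i, B (ρ' i) (σ i)) * mn v p ρ') := by
      intro ρ'
      rw [map_mul, eval_C, hP]
      ring
    rw [Finset.sum_congr rfl fun ρ' _ => h3 ρ', ← Finset.mul_sum, h2]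
    congr 1
    refine Finset.sum_congr rfl fun τ _ => ?_
    congr 1
    refine Finset.prod_congr rfl fun r _ => ?_
    rw [Matrix.of_apply]
    exact Finset.sum_congr rfl fun j _ => mul_comm _ _
  have h2 : ∀ (ρ : Fin (N - p) → Fin N) (τ : Equiv.Perm (Fin p)),
      ∑ σ : Fin p → Fin N, (∏ r, ∑ j, v (τ r) j * B j (σ r)) *
        mn v (N - p + p) (Fin.append ρ σ) =
      mn v (N - p) ρ * ((Equiv.Perm.sign τ : ℂ) * Γ.det) := by
    intro ρ τ
    rw [sum_append ρ (fun (r : Fin p) (i : Fin N) => ∑ j, v (τ r) j * B j i) v,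
      ← Matrix.det_submatrix_equiv_self finSumFinEquiv]
    have h3 : (Matrix.of fun r s : Fin (N - p + p) => Fin.addCases (motive := fun _ => ℂ)
        (fun r' => v s (ρ r')) (fun j => ∑ i, (∑ j', v (τ j) j' * B j' i) * v s i) r).submatrix
          finSumFinEquiv finSumFinEquiv = Matrix.fromBlocks
          (Matrix.of fun r s : Fin (N - p) => v s (ρ r))
          (Matrix.of fun (r : Fin (N - p)) (j : Fin p) => v (N - p + j) (ρ r)) 0
          (Γ.submatrix τ id) := by
      funext r s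
      rcases r with r | j <;> rcases s with s | j'
      · simp
      · simp
      · simp only [Matrix.submatrix_apply, finSumFinEquiv_apply_right, finSumFinEquiv_apply_left,
          Matrix.of_apply, Fin.addCases_right, Fin.val_castAdd, Matrix.fromBlocks_apply₂₁,
          Matrix.zero_apply]
        rw [hbil]
        exact hB s s.2 _ (τ j).2
      · simp only [Matrix.submatrix_apply, finSumFinEquiv_apply_right, Matrix.of_apply,
          Fin.addCases_right, Fin.val_natAdd, Matrix.fromBlocks_apply₂₂, hΓ, id]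
        rw [hbil]
    rw [h3, Matrix.det_fromBlocks_zero₂₁, Matrix.det_permute]
    rfl
  refine ⟨C * (mn v N id)⁻¹ * ((Fintype.card (Equiv.Perm (Fin p)) : ℂ) * Γ.det),
    mul_ne_zero (mul_ne_zero hC (inv_ne_zero hfull)) (mul_ne_zero
      (Nat.cast_ne_zero.mpr Fintype.card_ne_zero) hg), fun ρ => ?_⟩
  unfold yP
  rw [map_sum]
  have h3 : ∀ σ : Fin p → Fin N, eval z ((∑ ρ' : Fin p → Fin N,
      MvPolynomial.C (∏ i, B (ρ' i) (σ i)) * P ρ') *
      MvPolynomial.C (Matrix.det (Matrix.of fun r s : Fin N =>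
        if Fin.append ρ σ (Fin.cast h r) = s then (1 : ℂ) else 0))) =
      C * (mn v N id)⁻¹ * ∑ τ : Equiv.Perm (Fin p), (Equiv.Perm.sign τ : ℂ) *
        ((∏ r, ∑ j, v (τ r) j * B j (σ r)) * mn v (N - p + p) (Fin.append ρ σ)) := by
    intro σ
    rw [map_mul, h1, eval_C]
    have h4 : mn v (N - p + p) (Fin.append ρ σ) = Matrix.det (Matrix.of fun r s : Fin N =>
        if Fin.append ρ σ (Fin.cast h r) = s then (1 : ℂ) else 0) * mn v N id := by
      rw [← mn_full, mn_cast h]
    have h5 : Matrix.det (Matrix.of fun r s : Fin N =>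
        if Fin.append ρ σ (Fin.cast h r) = s then (1 : ℂ) else 0) =
        (mn v N id)⁻¹ * mn v (N - p + p) (Fin.append ρ σ) := by
      rw [h4]
      field_simp
    rw [h5]
    simp only [Finset.mul_sum, Finset.sum_mul]
    refine Finset.sum_congr rfl fun τ _ => ?_
    ring
  rw [Finset.sum_congr rfl fun σ _ => h3 σ, ← Finset.mul_sum, Finset.sum_comm]
  simp only [← Finset.mul_sum, h2]
  have h6 : ∀ τ : Equiv.Perm (Fin p), (Equiv.Perm.sign τ : ℂ) *
      (mn v (N - p) ρ * ((Equiv.Perm.sign τ : ℂ) * Γ.det)) = mn v (N - p) ρ * Γ.det := by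
    intro τ
    have h7 : (Equiv.Perm.sign τ : ℂ) * (Equiv.Perm.sign τ : ℂ) = 1 := by
      rcases Int.units_eq_one_or (Equiv.Perm.sign τ) with h | h <;> rw [h] <;> simp
    linear_combination (mn v (N - p) ρ * Γ.det) * h7
  rw [Finset.sum_congr rfl fun τ _ => h6 τ, Finset.sum_const, Finset.card_univ, nsmul_eq_mul]
  ring

end Poly

end Pool.Agent.H40.Cls
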