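import Pool.Agent.H40.Cls.Final

/-!
# The final form
-/

set_option autoImplicit false

namespace Pool.Agent.H40.Cls

open Matrix MvPolynomial Pool.Agent.H22.Sub Pool.Agent.H40.Flag

variable {T I : Type}

theorem semiample_of_nef {J : Type} [Fintype I] [Fintype J] {n : T → ℕ} {κ : T → Kind}
    {B : ∀ τ, Matrix (Fin (n τ)) (Fin (n τ)) ℂ} (hB : ∀ τ, IsForm (κ τ) (B τ))
    {t : I → T} {k : I → ℕ}
    (hinj : ∀ i j, t i = t j → k i = k j → i = j) (hk : ∀ i, 0 < k i ∧ k i < n (t i))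
    (hk2 : ∀ i, κ (t i) ≠ Kind.gl → 2 * k i ≤ n (t i))
    {p q : I → ℕ} (hp : ∀ i, IsGreatest {x | x = 0 ∨ ∃ j, t j = t i ∧ k j = x ∧ x < k i} (p i))
    (hq : ∀ i, IsLeast {x | x = endv (κ (t i)) (n (t i)) (k i) ∨
      ∃ j, t j = t i ∧ k j = x ∧ k i < x} (q i))
    {F : J → MvPolynomial (Crd n t k) ℂ} {d : J → I → ℕ}
    (hF : ∀ j, MultiHom Sigma.fst (F j) (fun i => (d j i : ℤ))) {a : I → ℤ} {m : ℕ} (hm : 1 ≤ m)
    (ha : ∀ i, ∑ j, (d j i : ℤ) - ((q i : ℤ) - p i) ≤ m * a i)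
    (hnef : IsNef Sigma.fst {x | x ∈ IsoFlags n B t k ∧ ∀ j, eval x (F j) = 0} a) :
    IsSemiample Sigma.fst {x | x ∈ IsoFlags n B t k ∧ ∀ j, eval x (F j) = 0} a := by
  classical
  have h1 : {x | x ∈ IsoFlags n B t k ∧ ∀ j, eval x (F j) = 0} = LocF B Finset.univ F := by
    ext x
    constructor
    · rintro ⟨⟨v, hv, hiso, c, hc, h⟩, hF⟩
      exact ⟨⟨v, c, hv, fun i _ => hc i, fun i _ => h i,
        fun i hi => absurd (Finset.mem_univ i) hi, fun i _ => hiso i⟩, hF⟩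
    · rintro ⟨⟨v, c, h⟩, hF⟩
      exact ⟨⟨v, h.frame, fun i => h.iso i (Finset.mem_univ i), c,
        fun i => h.ne i (Finset.mem_univ i), fun i => h.eq i (Finset.mem_univ i)⟩, hF⟩
  rw [h1] at hnef ⊢
  refine main hinj hk hk2 hB m hm _ Finset.univ rfl J F d hF
    (fun j i hi => absurd (Finset.mem_univ i) hi) a
    (fun i hi => absurd (Finset.mem_univ i) hi) (fun i _ p' q' hN => ?_) hnef
  have h2 : {x | x = 0 ∨ ∃ i' ∈ Finset.univ, t i' = t i ∧ k i' = x ∧ x < k i} =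
      {x | x = 0 ∨ ∃ j, t j = t i ∧ k j = x ∧ x < k i} := by
    ext x; simp
  have h3 : {x | x = endv (κ (t i)) (n (t i)) (k i) ∨
      ∃ i' ∈ Finset.univ, t i' = t i ∧ k i' = x ∧ k i < x} =
      {x | x = endv (κ (t i)) (n (t i)) (k i) ∨ ∃ j, t j = t i ∧ k j = x ∧ k i < x} := by
    ext x; simp
  have h4 : p' = p i := by
    have := hp i
    rw [← h2] at this
    exact hN.low.unique this
  have h5 : q' = q i := by
    have := hq i
    rw [← h3] at this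
    exact hN.high.unique this
  rw [h4, h5]
  exact ha i

end Pool.Agent.H40.Cls
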