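import Pool.Agent.H40.Cls.Defs

/-!
# The elimination of a step
-/

set_option autoImplicit false

namespace Pool.Agent.H40.Cls

open Matrix MvPolynomial Pool.Agent.H22.Sub Pool.Agent.H40.Flag

variable {T I : Type} {n : T → ℕ} {t : I → T} {k : I → ℕ}
  {B : ∀ τ, Matrix (Fin (n τ)) (Fin (n τ)) ℂ} {A : Finset I} {J : Type}
  {F : J → MvPolynomial (Crd n t k) ℂ} {d : J → I → ℕ} {i₀ : I}

lemma IsFlag.erase_self [DecidableEq I] {v : ∀ τ, ℕ → Fin (n τ) → ℂ} {c : I → ℂ}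
    {z : Crd n t k → ℂ} (h : IsFlag B (A.erase i₀) v c z) : gl i₀ z 0 = z :=
  gl_eq_self fun ρ => (h.out i₀ (Finset.notMem_erase i₀ A) ρ).symm

open Classical in
/-- General form of the elimination of a step. -/
theorem exists_elimination_of [Fintype I] (hk : ∀ i, 0 < k i ∧ k i < n (t i))
    (hF : ∀ j, MultiHom Sigma.fst (F j) (fun i => (d j i : ℤ))) (hi₀ : i₀ ∈ A)
    (hone : ∀ j, d j i₀ ≠ 0 → d j i₀ = 1) {p q : ℕ} (hqn : q ≤ n (t i₀))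
    (hfin : ∀ x ∈ LocF B A F, FinPts Sigma.fst (fib Sigma.fst (LocF B A F) i₀ x))
    {m : ℕ} (e : Fin m ≃ {j // d j i₀ ≠ 0})
    (hcase : (k i₀ = p + 1 ∧ q = p + 1 + m) ∨ (k i₀ = p + m ∧ q = p + m + 1))
    {P : (Fin p → Fin (n (t i₀))) → MvPolynomial (Crd n t k) ℂ} {wp : I → ℤ}
    (hPh : ∀ ρ, MultiHom Sigma.fst (P ρ) wp) (hwp : wp i₀ = 0)
    {Q : (Fin q → Fin (n (t i₀))) → MvPolynomial (Crd n t k) ℂ} {wq : I → ℤ}
    (hQh : ∀ ρ, MultiHom Sigma.fst (Q ρ) wq) (hwq : wq i₀ = 0)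
    (hA : ∀ (x : Crd n t k → ℂ) (v : ∀ τ, ℕ → Fin (n τ) → ℂ) (c : I → ℂ), IsFlag B A v c x →
      ∃ (v₁ : ℕ → Fin (n (t i₀)) → ℂ) (C C' : ℂ), IsFrame v₁ ∧ C ≠ 0 ∧ C' ≠ 0 ∧
        (∀ ρ, eval x (P ρ) = C * mn v₁ p ρ) ∧ (∀ ρ, eval x (Q ρ) = C' * mn v₁ q ρ) ∧
        (∀ ρ : Fin (k i₀) → Fin (n (t i₀)), mn v₁ (k i₀) ρ = mn (v (t i₀)) (k i₀) ρ) ∧
        ∀ v', Adj p q v₁ v' → ∀ l : ℂ, l ≠ 0 →
          ∃ v'' c'', IsFlag B A v'' c'' (gl i₀ x (fun ρ => l * mn v' (k i₀) ρ)))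
    (hE : ∀ (z : Crd n t k → ℂ) (v : ∀ τ, ℕ → Fin (n τ) → ℂ) (c : I → ℂ),
      IsFlag B (A.erase i₀) v c z → ∃ v₁ : ℕ → Fin (n (t i₀)) → ℂ, IsFrame v₁ ∧
        ∀ v', Adj p q v₁ v' → ∃ v'' c'', IsFlag B A v'' c'' (gl i₀ z (fun ρ => 1 * mn v' (k i₀) ρ))) :
    ∃ Y : (Fin (k i₀) → Fin (n (t i₀))) → MvPolynomial (Crd n t k) ℂ,
      Elim i₀ (LocF B A F) (LocF B (A.erase i₀) (fun j : {j // d j i₀ = 0} => F j.1)) Y
        (∑ j, dropHom i₀ (fun i => (d (e j).1 i : ℤ)) + (q - k i₀) • wp + (k i₀ - p) • wq) := by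
  have hbq : k i₀ ≤ q := by rcases hcase with h | h <;> omega
  obtain ⟨Y, hYh, -, hYv⟩ := exists_elim (π := (Sigma.fst : Crd n t k → I)) hcase hqn P Q
    (fun j => lc i₀ (F (e j).1)) hPh hQh (fun j ρ => lc_hom (hF (e j).1) ρ)
  -- the equations as linear forms
  have hlin : ∀ (j : Fin m) (x : Crd n t k → ℂ) (w : (Fin (k i₀) → Fin (n (t i₀))) → ℂ),
      eval (gl i₀ x w) (F (e j).1) = ∑ ρ, w ρ * eval x (lc i₀ (F (e j).1) ρ) := fun j x w =>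
    eval_gl_lin (hF (e j).1) (by rw [hone _ (e j).2]; rfl) x w
  have hlin' : ∀ (j : Fin m) (x : Crd n t k → ℂ) (w : (Fin (k i₀) → Fin (n (t i₀))) → ℂ) (l : ℂ),
      l ≠ 0 → (eval (gl i₀ x (fun ρ => l * w ρ)) (F (e j).1) = 0 ↔
        ∑ ρ, eval x (lc i₀ (F (e j).1) ρ) * w ρ = 0) := by
    intro j x w l hl
    have h1 : ∑ ρ, l * w ρ * eval x (lc i₀ (F (e j).1) ρ) =
        l * ∑ ρ, eval x (lc i₀ (F (e j).1) ρ) * w ρ := by
      rw [Finset.mul_sum]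
      exact Finset.sum_congr rfl fun ρ _ => by ring
    rw [hlin, h1]
    simp [hl]
  -- the value of `Y`
  have hval : ∀ x ∈ LocF B A F, ∃ l : ℂ, l ≠ 0 ∧ ∀ ρ, eval x (Y ρ) = l * x ⟨i₀, ρ⟩ := by
    rintro x hx
    obtain ⟨⟨v, c, hvc⟩, hxF⟩ := id hx
    have hc0 := hvc.ne i₀ hi₀
    obtain ⟨v₁, C, C', hv₁, hC, hC', hC1, hC'1, hb1, hadj⟩ := hA x v c hvc
    have hxself : gl i₀ x (fun ρ => c i₀ * mn v₁ (k i₀) ρ) = x :=
      gl_eq_self fun ρ => by rw [hvc.eq i₀ hi₀ ρ, hb1]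
    have hfin' : {ζ | ∀ j, ∑ ρ, eval x (lc i₀ (F (e j).1) ρ) *
        mn (dfm v₁ p (k i₀) q ζ) (k i₀) ρ = 0}.Finite := by
      refine finite_dfm hv₁ hbq hqn hc0 (hfin x hx) fun ζ hζ => ⟨?_, fun j => ?_⟩
      · exact hadj _ (adj_dfm hv₁ hqn ζ) _ hc0
      · by_cases hj : d j i₀ = 0
        · rw [eval_gl_of_zero x (hF j) (by rw [hj]; rfl)]
          exact hxF j
        · have h1 := hζ (e.symm ⟨j, hj⟩)
          have h2 := (hlin' (e.symm ⟨j, hj⟩) x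
            (fun ρ => mn (dfm v₁ p (k i₀) q ζ) (k i₀) ρ) (c i₀) hc0).mpr h1
          rwa [Equiv.apply_symm_apply] at h2
    obtain ⟨l, hl, hl1⟩ := hYv x v₁ C C' hv₁ hC hC' hC1 hC'1
      (fun j => (hlin' j x _ (c i₀) hc0).mp (by rw [hxself]; exact hxF _)) hfin'
    refine ⟨l / c i₀, div_ne_zero hl hc0, fun ρ => ?_⟩
    rw [hl1, hvc.eq i₀ hi₀, hb1]
    field_simp
  refine ⟨Y, ⟨hYh, ?_, ?_, hval, ?_, ?_, ?_, ?_⟩⟩
  · -- the degree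
    rw [Pi.add_apply, Pi.add_apply, Finset.sum_apply, Pi.smul_apply, Pi.smul_apply, hwp, hwq,
      smul_zero, smul_zero, add_zero, add_zero]
    exact Finset.sum_eq_zero fun j _ => dropHom_self _
  · rintro x ⟨⟨v, c, hvc⟩, -⟩
    obtain ⟨ρ, hρ⟩ := mn_ne (hvc.frame (t i₀)) (hk i₀).2.le
    exact ⟨ρ, by rw [hvc.eq i₀ hi₀]; exact mul_ne_zero (hvc.ne i₀ hi₀) hρ⟩
  · rintro x ⟨⟨v, c, hvc⟩, hxF⟩
    refine ⟨⟨v, c, hvc.erase i₀⟩, fun j => ?_⟩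
    rw [eval_gl_of_zero x (hF j.1) (by rw [j.2]; rfl)]
    exact hxF j.1
  · rintro z ⟨⟨v, c, hvc⟩, -⟩ ρ
    exact hvc.out i₀ (Finset.notMem_erase i₀ A) ρ
  · rintro z ⟨⟨v, c, hvc⟩, hzF⟩
    obtain ⟨v₁, hv₁, hadj⟩ := hE z v c hvc
    obtain ⟨v', hv', hv'1⟩ := exists_solution hcase hv₁ hqn
      (fun j ρ => eval z (lc i₀ (F (e j).1) ρ))
    refine ⟨fun ρ => 1 * mn v' (k i₀) ρ, hadj v' hv', fun j => ?_⟩
    by_cases hj : d j i₀ = 0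
    · rw [eval_gl_of_zero z (hF j) (by rw [hj]; rfl)]
      exact hzF ⟨j, hj⟩
    · have h2 := (hlin' (e.symm ⟨j, hj⟩) z (fun ρ => mn v' (k i₀) ρ) 1 one_ne_zero).mpr
        (hv'1 (e.symm ⟨j, hj⟩))
      rwa [Equiv.apply_symm_apply] at h2
  · rintro x ⟨⟨v, c, hvc⟩, hxF⟩ l hl
    refine ⟨⟨v, fun i => if i = i₀ then l * c i else c i, hvc.frame, fun i hi => ?_,
      fun i hi ρ => ?_, fun i hi ρ => ?_, hvc.iso⟩, fun j => ?_⟩
    · split_ifs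
      · exact mul_ne_zero hl (hvc.ne i hi)
      · exact hvc.ne i hi
    · by_cases h : i = i₀
      · subst h
        rw [gl_same, if_pos rfl, hvc.eq i hi, mul_assoc]
      · rw [gl_ne _ _ h, if_neg h, hvc.eq i hi]
    · have h : i ≠ i₀ := by rintro rfl; exact hi hi₀
      rw [gl_ne _ _ h, hvc.out i hi]
    · by_cases hj : d j i₀ = 0
      · rw [eval_gl_of_zero x (hF j) (by rw [hj]; rfl)]
        exact hxF j
      · have h2 := (hlin' (e.symm ⟨j, hj⟩) x (fun ρ => x ⟨i₀, ρ⟩) l hl)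
        have h3 := (hlin' (e.symm ⟨j, hj⟩) x (fun ρ => x ⟨i₀, ρ⟩) 1 one_ne_zero)
        rw [Equiv.apply_symm_apply] at h2 h3
        refine h2.mpr (h3.mp ?_)
        simp only [one_mul]
        rw [gl_self]
        exact hxF j

/-! ### first case: the next step is given -/

/-- isotropy of the new frames -/
lemma iso_of_adj {N : ℕ} {B : Matrix (Fin N) (Fin N) ℂ} {p q : ℕ} {v v' : ℕ → Fin N → ℂ}
    (h : Adj p q v v') {κ : ℕ} (hκ : q ≤ κ)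
    (hv : ∀ s s', s < κ → s' < κ → bil B (v s) (v s') = 0) :
    ∀ s s', s < κ → s' < κ → bil B (v' s) (v' s') = 0 := by
  have h1 : ∀ s, s < κ → v' s ∈ Submodule.span ℂ (v '' {x | x < κ}) := by
    intro s hs
    rcases Nat.lt_or_ge s q with hsq | hsq
    · refine Submodule.span_mono ?_ (h.span s hsq)
      exact Set.image_mono fun x (hx : x < q) => lt_of_lt_of_le hx hκ
    · rw [h.fix s (Or.inr hsq)]
      exact Submodule.subset_span ⟨s, hs, rfl⟩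
  intro s s' hs hs'
  refine bil_span ?_ (h1 s hs) (h1 s' hs')
  rintro _ ⟨a, ha, rfl⟩ _ ⟨b, hb, rfl⟩
  exact hv a b ha hb

lemma replace_adj [DecidableEq I] [DecidableEq T] (hinj : ∀ i j, t i = t j → k i = k j → i = j)
    {v : ∀ τ, ℕ → Fin (n τ) → ℂ} {c : I → ℂ} {x : Crd n t k → ℂ}
    (h : IsFlag B (A.erase i₀) v c (gl i₀ x 0)) (hi₀ : i₀ ∈ A) {p q : ℕ}
    (hp : ∀ i ∈ A, t i = t i₀ → k i < k i₀ → k i ≤ p)
    (hq : ∀ i ∈ A, t i = t i₀ → k i₀ < k i → q ≤ k i) (hbq : k i₀ ≤ q)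
    (hiso : ∀ s s', s < q → s' < q → bil (B (t i₀)) (v (t i₀) s) (v (t i₀) s') = 0)
    {v' : ℕ → Fin (n (t i₀)) → ℂ} (hv' : Adj p q (v (t i₀)) v') {l : ℂ} (hl : l ≠ 0) :
    ∃ c', IsFlag B A (Function.update v (t i₀) v') c'
      (gl i₀ x (fun ρ => l * mn v' (k i₀) ρ)) := by
  have hbil : ∀ i ∈ A.erase i₀, t i = t i₀ → ∀ s s', s < k i → s' < k i →
      bil (B (t i₀)) (v (t i₀) s) (v (t i₀) s') = 0 := by
    intro i hi h1 s s' hs hs'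
    have h2 := h.iso i hi s s' hs hs'
    have h3 : ∀ τ, τ = t i₀ → bil (B τ) (v τ s) (v τ s') = 0 →
        bil (B (t i₀)) (v (t i₀) s) (v (t i₀) s') = 0 := by
      rintro τ rfl h
      exact h
    exact h3 _ h1 h2
  refine h.replace hi₀ hv'.frame (fun i hi h1 => ?_) (fun i hi h1 s s' hs hs' => ?_) hl
  · obtain ⟨hi1, hi2⟩ := Finset.mem_erase.mp hi
    rcases Nat.lt_trichotomy (k i) (k i₀) with h2 | h2 | h2
    · exact ⟨1, one_ne_zero, fun ρ => by rw [hv'.low _ (hp i hi2 h1 h2), one_mul]⟩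
    · exact absurd (hinj i i₀ h1 h2) hi1
    · obtain ⟨ε, hε, h3⟩ := hv'.high
      exact ⟨ε, hε, fun ρ => h3 _ (hq i hi2 h1 h2) ρ⟩
  · by_cases hii : i = i₀
    · subst hii
      exact iso_of_adj hv' le_rfl hiso s s' (by omega) (by omega)
    · have hie := Finset.mem_erase.mpr ⟨hii, hi⟩
      rcases Nat.lt_trichotomy (k i) (k i₀) with h2 | h2 | h2
      · have h3 := hp i hi h1 h2
        rw [hv'.fix s (Or.inl (by omega)), hv'.fix s' (Or.inl (by omega))]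
        exact hbil i hie h1 s s' hs hs'
      · exact absurd (hinj i i₀ h1 h2) hii
      · exact iso_of_adj hv' (hq i hi h1 h2) (hbil i hie h1) s s' hs hs'

end Pool.Agent.H40.Cls
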